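import Pool.Agent.helper63.NU.Defs2
import Pool.Agent.helper41.NU.A1
import Pool.Agent.helper41.NU.A2
import Pool.Agent.helper41.NU.A3
import Pool.Agent.helper70.NU.A7

set_option autoImplicit false

/-! Module A8: the local Bochner identity (project NU of helper63, MP_737c0a_gt). -/

open MeasureTheory Filter Topology Set
open scoped ContDiff Manifold Matrix ENNReal ComplexOrder

noncomputable section

namespace Pool.Agent.helper63.NU

variable {n : ℕ}

namespace A8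

/-- the weight -/
def wt (ψ : E n → ℝ) (z : E n) : ℂ := (Real.exp (-ψ z) : ℂ)

/-- the vector `rs (lev ψ) (∂̄ f)` -/
def av (ψ : E n → ℝ) (f : E n → ℂ) (j : Fin n) (z : E n) : ℂ := rs (lev ψ z) (dbv f z) j

theorem inf_ne_zero : ((⊤ : ℕ∞) : WithTop ℕ∞) ≠ 0 := by simp

theorem two_le_inf : (2 : WithTop ℕ∞) ≤ ((⊤ : ℕ∞) : WithTop ℕ∞) :=
  WithTop.coe_le_coe.2 (le_top : (2 : ℕ∞) ≤ ⊤)

theorem diffAt {U : Set (E n)} (hU : IsOpen U) {f : E n → ℂ} (hf : ContDiffOn ℝ ∞ f U) {y : E n}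
    (hy : y ∈ U) : DifferentiableAt ℝ f y :=
  (hf.contDiffAt (hU.mem_nhds hy)).differentiableAt inf_ne_zero

theorem contDiffOn_ofReal {U : Set (E n)} {ψ : E n → ℝ} (hψ : ContDiffOn ℝ ∞ ψ U) :
    ContDiffOn ℝ ∞ (fun z => ((ψ z : ℝ) : ℂ)) U :=
  Complex.ofRealCLM.contDiff.comp_contDiffOn hψ

theorem contDiffOn_wt {U : Set (E n)} {ψ : E n → ℝ} (hψ : ContDiffOn ℝ ∞ ψ U) :
    ContDiffOn ℝ ∞ (wt ψ) U :=
  contDiffOn_ofReal (hψ.neg.exp)

theorem contDiffOn_av {U : Set (E n)} (hU : IsOpen U) {ψ : E n → ℝ} (hψ : ContDiffOn ℝ ∞ ψ U)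
    (hp : ∀ y ∈ U, (lev ψ y).PosDef) {f : E n → ℂ} (hf : ContDiffOn ℝ ∞ f U) (j : Fin n) :
    ContDiffOn ℝ ∞ (av ψ f j) U := contDiffOn_rs hU hψ hp hf j

theorem wt_mul_exp (ψ : E n → ℝ) (y : E n) : wt ψ y * (Real.exp (ψ y) : ℂ) = 1 := by
  unfold wt
  rw [← Complex.ofReal_mul, ← Real.exp_add]
  simp

theorem conj_wt (ψ : E n → ℝ) (y : E n) : (starRingEnd ℂ) (wt ψ y) = wt ψ y :=
  Complex.conj_ofReal _

/-- `dz j w = - w dz j ψ` -/
theorem dz_wt {U : Set (E n)} (hU : IsOpen U) {ψ : E n → ℝ} (hψ : ContDiffOn ℝ ∞ ψ U) {y : E n}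
    (hy : y ∈ U) (j : Fin n) :
    dz j (wt ψ) y = -(wt ψ y * dz j (fun z => ((ψ z : ℝ) : ℂ)) y) := by
  have h1 : DifferentiableAt ℝ ψ y := (hψ.contDiffAt (hU.mem_nhds hy)).differentiableAt inf_ne_zero
  have h2 : DifferentiableAt ℝ (fun x : ℝ => Real.exp (-x)) (ψ y) := by fun_prop
  have h3 := dz_real_comp (g := fun x : ℝ => Real.exp (-x)) h2 h1 j
  have h4 : deriv (fun x : ℝ => Real.exp (-x)) (ψ y) = - Real.exp (-ψ y) := by
    have : HasDerivAt (fun x : ℝ => Real.exp (-x)) (Real.exp (-ψ y) * (-1)) (ψ y) :=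
      (hasDerivAt_neg (ψ y)).exp
    rw [this.deriv]
    ring
  rw [h4] at h3
  unfold wt
  rw [h3]
  push_cast
  ring

/-- `bx` without the exponential -/
theorem bx_wt (ψ : E n → ℝ) (f : E n → ℂ) (y : E n) :
    bx ψ f y * wt ψ y = -∑ j, dz j (fun z => wt ψ z * av ψ f j z) y := by
  have h := wt_mul_exp ψ y
  unfold bx
  calc _ = -(wt ψ y * (Real.exp (ψ y) : ℂ)) * ∑ j, dz j (fun z => wt ψ z * av ψ f j z) y := by
        unfold wt av
        ring
    _ = _ := by rw [h]; ring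

/-- `bx` as a sum of `δ_j a_j` -/
theorem bx_eq {U : Set (E n)} (hU : IsOpen U) {ψ : E n → ℝ} (hψ : ContDiffOn ℝ ∞ ψ U)
    (hp : ∀ y ∈ U, (lev ψ y).PosDef) {f : E n → ℂ} (hf : ContDiffOn ℝ ∞ f U) {y : E n}
    (hy : y ∈ U) : bx ψ f y = ∑ j, (dz j (fun z => ((ψ z : ℝ) : ℂ)) y * av ψ f j y
      - dz j (av ψ f j) y) := by
  have h := wt_mul_exp ψ y
  have h1 : ∀ j, dz j (fun z => wt ψ z * av ψ f j z) y =
      -(wt ψ y * dz j (fun z => ((ψ z : ℝ) : ℂ)) y) * av ψ f j y + wt ψ y * dz j (av ψ f j) y := by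
    intro j
    rw [dz_mul (diffAt hU (contDiffOn_wt hψ) hy) (diffAt hU (contDiffOn_av hU hψ hp hf j) hy),
      dz_wt hU hψ hy]
  have h2 : bx ψ f y = -(Real.exp (ψ y) : ℂ) * ∑ j, dz j (fun z => wt ψ z * av ψ f j z) y := rfl
  rw [h2, Finset.mul_sum]
  refine Finset.sum_congr rfl (fun j _ => ?_)
  rw [h1]
  linear_combination (dz j (fun z => ((ψ z : ℝ) : ℂ)) y * av ψ f j y - dz j (av ψ f j) y) * h

theorem db_zero_off {u : E n → ℂ} {y : E n} (hy : y ∉ tsupport u) (j : Fin n) : db j u y = 0 :=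
  image_eq_zero_of_notMem_tsupport (fun h => hy (tsupport_db_subset u j h))

theorem dz_zero_off {u : E n → ℂ} {y : E n} (hy : y ∉ tsupport u) (j : Fin n) : dz j u y = 0 :=
  image_eq_zero_of_notMem_tsupport (fun h => hy (tsupport_dz_subset u j h))

theorem av_zero_off (ψ : E n → ℝ) {u : E n → ℂ} {y : E n} (hy : y ∉ tsupport u) (j : Fin n) :
    av ψ u j y = 0 := by
  unfold av rs dbv
  exact Finset.sum_eq_zero (fun k _ => by rw [db_zero_off hy, mul_zero])

theorem tsupport_of_zero {g u : E n → ℂ} (h : ∀ y, y ∉ tsupport u → g y = 0) :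
    tsupport g ⊆ tsupport u := by
  refine closure_minimal ?_ (isClosed_tsupport u)
  intro y hy
  by_contra hn
  exact hy (h y hn)

theorem contDiff_of_off {U : Set (E n)} (hU : IsOpen U) {g u : E n → ℂ} (hg : ContDiffOn ℝ ∞ g U)
    (hs : tsupport u ⊆ U) (h : ∀ y, y ∉ tsupport u → g y = 0) : ContDiff ℝ ∞ g := by
  rw [contDiff_iff_contDiffAt]
  intro y
  by_cases hy : y ∈ tsupport u
  · exact hg.contDiffAt (hU.mem_nhds (hs hy))
  · have h1 : g =ᶠ[𝓝 y] fun _ => 0 := by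
      filter_upwards [(isClosed_tsupport u).isOpen_compl.mem_nhds hy] with z hz
      exact h z hz
    exact contDiffAt_const.congr_of_eventuallyEq h1

theorem hasCompactSupport_of_off {g u : E n → ℂ} (hc : HasCompactSupport u)
    (h : ∀ y, y ∉ tsupport u → g y = 0) : HasCompactSupport g :=
  hc.of_isClosed_subset (isClosed_tsupport g) (tsupport_of_zero h)

theorem integrable_of_off {U : Set (E n)} (hU : IsOpen U) {g u : E n → ℂ}
    (hg : ContDiffOn ℝ ∞ g U) (hs : tsupport u ⊆ U) (hc : HasCompactSupport u)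
    (h : ∀ y, y ∉ tsupport u → g y = 0) : Integrable g :=
  (contDiff_of_off hU hg hs h).continuous.integrable_of_hasCompactSupport
    (hasCompactSupport_of_off hc h)

theorem setIntegral_off {U : Set (E n)} {g u : E n → ℂ} (hs : tsupport u ⊆ U)
    (h : ∀ y, y ∉ tsupport u → g y = 0) : ∫ y in U, g y = ∫ y, g y :=
  setIntegral_eq_integral_of_forall_compl_eq_zero (fun y hy => h y (fun h' => hy (hs h')))

theorem contDiff_conj {u : E n → ℂ} (hu : ContDiff ℝ ∞ u) :
    ContDiff ℝ ∞ (fun y => (starRingEnd ℂ) (u y)) :=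
  Complex.conjCLE.contDiff.comp hu

theorem contDiffOn_conj {U : Set (E n)} {u : E n → ℂ} (hu : ContDiffOn ℝ ∞ u U) :
    ContDiffOn ℝ ∞ (fun y => (starRingEnd ℂ) (u y)) U :=
  Complex.conjCLE.contDiff.comp_contDiffOn hu

theorem conj_zero_off {u : E n → ℂ} {y : E n} (hy : y ∉ tsupport u) :
    (starRingEnd ℂ) (u y) = 0 := by
  rw [image_eq_zero_of_notMem_tsupport hy, map_zero]

end A8

open A8

/-- `bx` is the adjoint of `∂̄` composed with `∂̄` -/
theorem integral_bx_mul {U : Set (E n)} (hU : IsOpen U) {ψ : E n → ℝ} (hψ : ContDiffOn ℝ ∞ ψ U)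
    (hp : ∀ y ∈ U, (lev ψ y).PosDef) {f u : E n → ℂ} (hf : ContDiffOn ℝ ∞ f U)
    (hu : ContDiff ℝ ∞ u) (hc : HasCompactSupport u) (hs : tsupport u ⊆ U) :
    ∫ y in U, bx ψ f y * (starRingEnd ℂ) (u y) * (Real.exp (-ψ y) : ℂ)
      = ∫ y in U, cn (lev ψ y) (dbv f y) (dbv u y) * (Real.exp (-ψ y) : ℂ) := by
  have hW : ∀ j, ContDiffOn ℝ ∞ (fun z => wt ψ z * av ψ f j z) U := fun j =>
    (contDiffOn_wt hψ).mul (contDiffOn_av hU hψ hp hf j)
  have hcu := contDiff_conj hu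
  -- left side
  have e1 : ∀ y, bx ψ f y * (starRingEnd ℂ) (u y) * (Real.exp (-ψ y) : ℂ) =
      -∑ j, dz j (fun z => wt ψ z * av ψ f j z) y * (starRingEnd ℂ) (u y) := by
    intro y
    rw [← Finset.sum_mul, ← neg_mul, ← bx_wt]
    unfold wt
    ring
  have e2 : ∀ y, cn (lev ψ y) (dbv f y) (dbv u y) * (Real.exp (-ψ y) : ℂ) =
      ∑ j, (wt ψ y * av ψ f j y) * (starRingEnd ℂ) (db j u y) := by
    intro y
    rw [cn_eq_left, Finset.sum_mul]
    refine Finset.sum_congr rfl (fun j _ => ?_)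
    unfold wt av dbv
    ring
  simp only [e1, e2]
  have hz : ∀ y, y ∉ tsupport u → (starRingEnd ℂ) (u y) = 0 := fun y hy => conj_zero_off hy
  have hts : tsupport (fun y => (starRingEnd ℂ) (u y)) ⊆ U := (tsupport_of_zero hz).trans hs
  have hcc : HasCompactSupport (fun y => (starRingEnd ℂ) (u y)) := hasCompactSupport_of_off hc hz
  rw [setIntegral_off (u := u) hs (fun y hy => by simp [conj_zero_off hy]),
    setIntegral_off (u := u) hs (fun y hy => by simp [db_zero_off hy])]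
  rw [integral_neg, integral_finsetSum, integral_finsetSum, ← Finset.sum_neg_distrib]
  · refine Finset.sum_congr rfl (fun j _ => ?_)
    rw [integral_dz_mul hU (hW j) hcu hcc hts j, neg_neg]
    refine integral_congr_ae (Eventually.of_forall (fun y => ?_))
    dsimp only
    rw [dz_conj]
  · intro j _
    refine integrable_of_off hU ?_ hs hc (fun y hy => by simp [db_zero_off hy])
    exact (hW j).mul (contDiffOn_conj (contDiffOn_db hU hu.contDiffOn j))
  · intro j _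
    refine integrable_of_off hU ?_ hs hc (fun y hy => by simp [conj_zero_off hy])
    exact (contDiffOn_dz hU (hW j) j).mul hcu.contDiffOn

theorem qf_self_nonneg {U : Set (E n)} (hU : IsOpen U) {ψ : E n → ℝ} (hψ : ContDiffOn ℝ ∞ ψ U)
    (hp : ∀ y ∈ U, (lev ψ y).PosDef) {f : E n → ℂ} (hf : ContDiffOn ℝ ∞ f U) {y : E n}
    (hy : y ∈ U) : 0 ≤ (qf ψ f f y).re := by
  have key : ∀ k l, ∑ j, lev ψ y j l * db k (av ψ f j) y =
      db k (db l f) y - ∑ j, db k (fun z => lev ψ z j l) y * av ψ f j y := by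
    intro k l
    have h1 : (fun z => ∑ j, lev ψ z j l * av ψ f j z) =ᶠ[𝓝 y] db l f := by
      filter_upwards [hU.mem_nhds hy] with z hz
      exact sum_mul_rs (hp z hz) (dbv f z) l
    have h2 := db_congr h1 k
    rw [db_sum Finset.univ (f := fun j z => lev ψ z j l * av ψ f j z)
      (fun j _ => ((diffAt hU (contDiffOn_lev hU hψ j l) hy).mul
      (diffAt hU (contDiffOn_av hU hψ hp hf j) hy)))] at h2
    rw [← h2, ← Finset.sum_sub_distrib]
    refine Finset.sum_congr rfl (fun j _ => ?_)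
    rw [db_mul (diffAt hU (contDiffOn_lev hU hψ j l) hy)
      (diffAt hU (contDiffOn_av hU hψ hp hf j) hy)]
    ring
  refine q_nonneg (Θ := lev ψ y) (hp y hy) (B := Matrix.of fun j k => db k (av ψ f j) y) ?_
  intro k l
  simp only [Matrix.of_apply]
  rw [key k l, key l k]
  have h3 : db k (db l f) y = db l (db k f) y :=
    db_db_comm ((hf.contDiffAt (hU.mem_nhds hy)).of_le two_le_inf) k l
  rw [h3]
  congr 1
  refine Finset.sum_congr rfl (fun j _ => ?_)
  rw [db_lev_symm hU hψ hy j l k]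

/-- derivative of `bx` -/
theorem A8.db_bx {U : Set (E n)} (hU : IsOpen U) {ψ : E n → ℝ} (hψ : ContDiffOn ℝ ∞ ψ U)
    (hp : ∀ y ∈ U, (lev ψ y).PosDef) {f : E n → ℂ} (hf : ContDiffOn ℝ ∞ f U) {y : E n}
    (hy : y ∈ U) (k : Fin n) : db k (bx ψ f) y * wt ψ y =
      ∑ j, (lev ψ y j k * av ψ f j y * wt ψ y
        - dz j (fun z => wt ψ z * db k (av ψ f j) z) y) := by
  have hP : ∀ j, ContDiffOn ℝ ∞ (dz j (fun z => ((ψ z : ℝ) : ℂ))) U := fun j =>
    contDiffOn_dz hU (contDiffOn_ofReal hψ) j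
  have hA : ∀ j, ContDiffOn ℝ ∞ (av ψ f j) U := fun j => contDiffOn_av hU hψ hp hf j
  have h1 : bx ψ f =ᶠ[𝓝 y] fun z => ∑ j, (dz j (fun z => ((ψ z : ℝ) : ℂ)) z * av ψ f j z
      - dz j (av ψ f j) z) := by
    filter_upwards [hU.mem_nhds hy] with z hz
    exact bx_eq hU hψ hp hf hz
  rw [db_congr h1 k]
  rw [db_sum Finset.univ (f := fun j z => dz j (fun z => ((ψ z : ℝ) : ℂ)) z * av ψ f j z
      - dz j (av ψ f j) z) (fun j _ => ((diffAt hU (hP j) hy).mul (diffAt hU (hA j) hy)).sub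
      (diffAt hU (contDiffOn_dz hU (hA j) j) hy)), Finset.sum_mul]
  refine Finset.sum_congr rfl (fun j _ => ?_)
  rw [db_sub (f := fun z => dz j (fun z => ((ψ z : ℝ) : ℂ)) z * av ψ f j z)
      ((diffAt hU (hP j) hy).mul (diffAt hU (hA j) hy))
      (diffAt hU (contDiffOn_dz hU (hA j) j) hy),
    db_mul (diffAt hU (hP j) hy) (diffAt hU (hA j) hy),
    dz_mul (diffAt hU (contDiffOn_wt hψ) hy) (diffAt hU (contDiffOn_db hU (hA j) k) hy),
    dz_wt hU hψ hy]
  have h2 : db k (dz j (fun z => ((ψ z : ℝ) : ℂ))) y = lev ψ y j k := by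
    have h3 : ContDiffAt ℝ 2 (fun z => ((ψ z : ℝ) : ℂ)) y :=
      ((contDiffOn_ofReal hψ).contDiffAt (hU.mem_nhds hy)).of_le two_le_inf
    rw [← dz_db_comm h3 j k]
    rfl
  have h4 : db k (dz j (av ψ f j)) y = dz j (db k (av ψ f j)) y :=
    (dz_db_comm (((hA j).contDiffAt (hU.mem_nhds hy)).of_le two_le_inf) j k).symm
  rw [h2, h4]
  ring

/-- polarized Bochner identity, one factor with compact support -/
theorem bochner_local {U : Set (E n)} (hU : IsOpen U) {ψ : E n → ℝ} (hψ : ContDiffOn ℝ ∞ ψ U)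
    (hp : ∀ y ∈ U, (lev ψ y).PosDef) {f u : E n → ℂ} (hf : ContDiffOn ℝ ∞ f U)
    (hu : ContDiff ℝ ∞ u) (hc : HasCompactSupport u) (hs : tsupport u ⊆ U) :
    ∫ y in U, bx ψ f y * (starRingEnd ℂ) (bx ψ u y) * (Real.exp (-ψ y) : ℂ)
      = ∫ y in U, (cn (lev ψ y) (dbv f y) (dbv u y) + qf ψ f u y) * (Real.exp (-ψ y) : ℂ) := by
  have hW := contDiffOn_wt hψ
  have hA : ∀ j, ContDiffOn ℝ ∞ (av ψ f j) U := fun j => contDiffOn_av hU hψ hp hf j
  have hB : ∀ j, ContDiffOn ℝ ∞ (av ψ u j) U := fun j => contDiffOn_av hU hψ hp hu.contDiffOn j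
  have hF : ContDiffOn ℝ ∞ (bx ψ f) U := contDiffOn_bx hU hψ hp hf
  -- the test functions `w conj b_k`
  have hz0 : ∀ k y, y ∉ tsupport u → wt ψ y * (starRingEnd ℂ) (av ψ u k y) = 0 := by
    intro k y hy
    rw [av_zero_off ψ hy, map_zero, mul_zero]
  have hTon : ∀ k, ContDiffOn ℝ ∞ (fun y => wt ψ y * (starRingEnd ℂ) (av ψ u k y)) U :=
    fun k => hW.mul (contDiffOn_conj (hB k))
  have hT : ∀ k, ContDiff ℝ ∞ (fun y => wt ψ y * (starRingEnd ℂ) (av ψ u k y)) :=
    fun k => contDiff_of_off hU (hTon k) hs (hz0 k)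
  have hTc : ∀ k, HasCompactSupport (fun y => wt ψ y * (starRingEnd ℂ) (av ψ u k y)) :=
    fun k => hasCompactSupport_of_off hc (hz0 k)
  have hTs : ∀ k, tsupport (fun y => wt ψ y * (starRingEnd ℂ) (av ψ u k y)) ⊆ U :=
    fun k => (tsupport_of_zero (hz0 k)).trans hs
  -- the test functions `conj b_k`
  have hz1 : ∀ k y, y ∉ tsupport u → (starRingEnd ℂ) (av ψ u k y) = 0 := by
    intro k y hy
    rw [av_zero_off ψ hy, map_zero]
  have hSon : ∀ k, ContDiffOn ℝ ∞ (fun y => (starRingEnd ℂ) (av ψ u k y)) U :=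
    fun k => contDiffOn_conj (hB k)
  have hS : ∀ k, ContDiff ℝ ∞ (fun y => (starRingEnd ℂ) (av ψ u k y)) :=
    fun k => contDiff_of_off hU (hSon k) hs (hz1 k)
  have hSc : ∀ k, HasCompactSupport (fun y => (starRingEnd ℂ) (av ψ u k y)) :=
    fun k => hasCompactSupport_of_off hc (hz1 k)
  have hSs : ∀ k, tsupport (fun y => (starRingEnd ℂ) (av ψ u k y)) ⊆ U :=
    fun k => (tsupport_of_zero (hz1 k)).trans hs
  -- derivative of `b_k` vanishes off the support
  have hoff : ∀ k y, y ∉ tsupport u → av ψ u k =ᶠ[𝓝 y] fun _ => 0 := by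
    intro k y hy
    filter_upwards [(isClosed_tsupport u).isOpen_compl.mem_nhds hy] with z hz
    exact av_zero_off ψ hz k
  have hdb0 : ∀ j k y, y ∉ tsupport u → db j (av ψ u k) y = 0 := by
    intro j k y hy
    rw [db_congr (hoff k y hy), db_const]
  -- step 1
  have e1 : ∀ y, bx ψ f y * (starRingEnd ℂ) (bx ψ u y) * (Real.exp (-ψ y) : ℂ) =
      -∑ k, bx ψ f y * db k (fun z => wt ψ z * (starRingEnd ℂ) (av ψ u k z)) y := by
    intro y
    have h1 := congrArg (starRingEnd ℂ) (bx_wt ψ u y)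
    rw [map_mul, conj_wt, map_neg, map_sum] at h1
    have h2 : ∀ k, (starRingEnd ℂ) (dz k (fun z => wt ψ z * av ψ u k z) y) =
        db k (fun z => wt ψ z * (starRingEnd ℂ) (av ψ u k z)) y := by
      intro k
      rw [← db_conj]
      congr 1
      funext z
      rw [map_mul, conj_wt]
    simp only [h2] at h1
    have h3 : (Real.exp (-ψ y) : ℂ) = wt ψ y := rfl
    rw [h3, mul_assoc, h1, ← Finset.mul_sum]
    ring
  have step1 : ∫ y in U, bx ψ f y * (starRingEnd ℂ) (bx ψ u y) * (Real.exp (-ψ y) : ℂ) =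
      ∑ k, ∫ y, db k (bx ψ f) y * (wt ψ y * (starRingEnd ℂ) (av ψ u k y)) := by
    simp only [e1]
    have hz2 : ∀ k y, y ∉ tsupport u →
        bx ψ f y * db k (fun z => wt ψ z * (starRingEnd ℂ) (av ψ u k z)) y = 0 := by
      intro k y hy
      have : db k (fun z => wt ψ z * (starRingEnd ℂ) (av ψ u k z)) y = 0 :=
        db_zero_off (fun h => hy (tsupport_of_zero (hz0 k) h)) k
      rw [this, mul_zero]
    rw [setIntegral_off (u := u) hs (fun y hy => by
      rw [Finset.sum_eq_zero (fun k _ => hz2 k y hy), neg_zero]), integral_neg,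
      integral_finsetSum, ← Finset.sum_neg_distrib]
    · refine Finset.sum_congr rfl (fun k _ => ?_)
      rw [integral_db_mul hU hF (hT k) (hTc k) (hTs k) k]
    · intro k _
      refine integrable_of_off hU ?_ hs hc (hz2 k)
      exact hF.mul (contDiffOn_db hU (hTon k) k)
  -- step 2
  have hz3 : ∀ j k y, y ∉ tsupport u →
      lev ψ y j k * av ψ f j y * wt ψ y * (starRingEnd ℂ) (av ψ u k y) = 0 := by
    intro j k y hy
    rw [hz1 k y hy, mul_zero]
  have hz4 : ∀ j k y, y ∉ tsupport u →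
      dz j (fun z => wt ψ z * db k (av ψ f j) z) y * (starRingEnd ℂ) (av ψ u k y) = 0 := by
    intro j k y hy
    rw [hz1 k y hy, mul_zero]
  have i3 : ∀ j k, Integrable (fun y =>
      lev ψ y j k * av ψ f j y * wt ψ y * (starRingEnd ℂ) (av ψ u k y)) := fun j k =>
    integrable_of_off hU ((((contDiffOn_lev hU hψ j k).mul (hA j)).mul hW).mul (hSon k)) hs hc
      (hz3 j k)
  have i4 : ∀ j k, Integrable (fun y =>
      dz j (fun z => wt ψ z * db k (av ψ f j) z) y * (starRingEnd ℂ) (av ψ u k y)) := fun j k =>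
    integrable_of_off hU ((contDiffOn_dz hU (hW.mul (contDiffOn_db hU (hA j) k)) j).mul (hSon k))
      hs hc (hz4 j k)
  have step2 : ∀ k, ∫ y, db k (bx ψ f) y * (wt ψ y * (starRingEnd ℂ) (av ψ u k y)) =
      ∑ j, ((∫ y, lev ψ y j k * av ψ f j y * wt ψ y * (starRingEnd ℂ) (av ψ u k y)) +
        ∫ y, (wt ψ y * db k (av ψ f j) y) * (starRingEnd ℂ) (db j (av ψ u k) y)) := by
    intro k
    have h1 : ∀ y, db k (bx ψ f) y * (wt ψ y * (starRingEnd ℂ) (av ψ u k y)) =
        ∑ j, (lev ψ y j k * av ψ f j y * wt ψ y * (starRingEnd ℂ) (av ψ u k y) -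
          dz j (fun z => wt ψ z * db k (av ψ f j) z) y * (starRingEnd ℂ) (av ψ u k y)) := by
      intro y
      by_cases hy : y ∈ tsupport u
      · rw [← mul_assoc, A8.db_bx hU hψ hp hf (hs hy) k, Finset.sum_mul]
        refine Finset.sum_congr rfl (fun j _ => ?_)
        ring
      · rw [hz1 k y hy, mul_zero, mul_zero]
        simp
    have i34 : ∀ j, Integrable (fun y =>
        lev ψ y j k * av ψ f j y * wt ψ y * (starRingEnd ℂ) (av ψ u k y) -
          dz j (fun z => wt ψ z * db k (av ψ f j) z) y * (starRingEnd ℂ) (av ψ u k y)) :=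
      fun j => (i3 j k).sub (i4 j k)
    simp only [h1]
    rw [integral_finsetSum _ (fun j _ => i34 j)]
    refine Finset.sum_congr rfl (fun j _ => ?_)
    rw [integral_sub (i3 j k) (i4 j k), integral_dz_mul hU
      (hW.mul (contDiffOn_db hU (hA j) k)) (hS k) (hSc k) (hSs k) j, sub_neg_eq_add]
    congr 1
    refine integral_congr_ae (Eventually.of_forall (fun y => ?_))
    dsimp only
    rw [dz_conj]
  rw [step1]
  simp only [step2]
  -- right side
  have hz5 : ∀ j k y, y ∉ tsupport u →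
      (wt ψ y * db k (av ψ f j) y) * (starRingEnd ℂ) (db j (av ψ u k) y) = 0 := by
    intro j k y hy
    rw [hdb0 j k y hy, map_zero, mul_zero]
  have i5 : ∀ j k, Integrable (fun y =>
      (wt ψ y * db k (av ψ f j) y) * (starRingEnd ℂ) (db j (av ψ u k) y)) := fun j k =>
    integrable_of_off hU ((hW.mul (contDiffOn_db hU (hA j) k)).mul
      (contDiffOn_conj (contDiffOn_db hU (hB k) j))) hs hc (hz5 j k)
  have e2 : ∀ y ∈ U, (cn (lev ψ y) (dbv f y) (dbv u y) + qf ψ f u y) * (Real.exp (-ψ y) : ℂ) =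
      ∑ k, ∑ j, (lev ψ y j k * av ψ f j y * wt ψ y * (starRingEnd ℂ) (av ψ u k y) +
        (wt ψ y * db k (av ψ f j) y) * (starRingEnd ℂ) (db j (av ψ u k) y)) := by
    intro y hy
    rw [cn_rs (hp y hy), Finset.sum_comm]
    have h2 : qf ψ f u y = ∑ k, ∑ j, db k (av ψ f j) y * (starRingEnd ℂ) (db j (av ψ u k) y) := by
      rw [Finset.sum_comm]
      rfl
    rw [h2, ← Finset.sum_add_distrib, Finset.sum_mul]
    refine Finset.sum_congr rfl (fun k _ => ?_)
    rw [← Finset.sum_add_distrib, Finset.sum_mul]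
    refine Finset.sum_congr rfl (fun j _ => ?_)
    have h3 : (Real.exp (-ψ y) : ℂ) = wt ψ y := rfl
    rw [h3]
    unfold av
    ring
  rw [setIntegral_congr_fun hU.measurableSet e2]
  rw [setIntegral_off (u := u) hs (fun y hy => by
    refine Finset.sum_eq_zero (fun k _ => Finset.sum_eq_zero (fun j _ => ?_))
    rw [hz3 j k y hy, hz5 j k y hy, add_zero])]
  have i35 : ∀ j k, Integrable (fun y =>
      lev ψ y j k * av ψ f j y * wt ψ y * (starRingEnd ℂ) (av ψ u k y) +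
        (wt ψ y * db k (av ψ f j) y) * (starRingEnd ℂ) (db j (av ψ u k) y)) :=
    fun j k => (i3 j k).add (i5 j k)
  have i36 : ∀ k, Integrable (fun y => ∑ j,
      (lev ψ y j k * av ψ f j y * wt ψ y * (starRingEnd ℂ) (av ψ u k y) +
        (wt ψ y * db k (av ψ f j) y) * (starRingEnd ℂ) (db j (av ψ u k) y))) :=
    fun k => integrable_finsetSum _ (fun j _ => i35 j k)
  rw [integral_finsetSum _ (fun k _ => i36 k)]
  refine Finset.sum_congr rfl (fun k _ => ?_)
  rw [integral_finsetSum _ (fun j _ => i35 j k)]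
  refine Finset.sum_congr rfl (fun j _ => ?_)
  rw [integral_add (i3 j k) (i5 j k)]

end Pool.Agent.helper63.NU
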