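import Pool.Agent.helper63.NU.Defs2
import Pool.Agent.helper41.NU.A1
import Pool.Agent.helper41.NU.A2
import Pool.Agent.helper69.NU.B1

set_option autoImplicit false
set_option linter.all false

/-! Module B4b: `∂̄^*∂̄ s` is a section (by the Piola identity). -/

open MeasureTheory Filter Topology Set
open scoped ContDiff Manifold Matrix ENNReal ComplexOrder

noncomputable section

namespace Pool.Agent.helper63.NU

namespace B4b

section loc

variable {n : ℕ}

theorem inf_ne_zero : ((⊤ : ℕ∞) : WithTop ℕ∞) ≠ 0 := by simp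

theorem two_le_inf : (2 : WithTop ℕ∞) ≤ ((⊤ : ℕ∞) : WithTop ℕ∞) :=
  WithTop.coe_le_coe.2 (le_top : (2 : ℕ∞) ≤ ⊤)

theorem diffAt {F : Type*} [NormedAddCommGroup F] [NormedSpace ℝ F] {U : Set (E n)}
    (hU : IsOpen U) {f : E n → F} (hf : ContDiffOn ℝ ∞ f U) {y : E n}
    (hy : y ∈ U) : DifferentiableAt ℝ f y :=
  (hf.contDiffAt (hU.mem_nhds hy)).differentiableAt inf_ne_zero

theorem contDiffOn_ofReal {U : Set (E n)} {ψ : E n → ℝ} (hψ : ContDiffOn ℝ ∞ ψ U) :
    ContDiffOn ℝ ∞ (fun z => ((ψ z : ℝ) : ℂ)) U :=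
  Complex.ofRealCLM.contDiff.comp_contDiffOn hψ

/-! ### the formula for `bx` -/

/-- the weight -/
def wt (ψ : E n → ℝ) (z : E n) : ℂ := (Real.exp (-ψ z) : ℂ)

/-- the vector `rs (lev ψ) (∂̄ f)` -/
def av (ψ : E n → ℝ) (f : E n → ℂ) (j : Fin n) (z : E n) : ℂ := rs (lev ψ z) (dbv f z) j

theorem contDiffOn_wt {U : Set (E n)} {ψ : E n → ℝ} (hψ : ContDiffOn ℝ ∞ ψ U) :
    ContDiffOn ℝ ∞ (wt ψ) U :=
  contDiffOn_ofReal (hψ.neg.exp)

theorem contDiffOn_av {U : Set (E n)} (hU : IsOpen U) {ψ : E n → ℝ} (hψ : ContDiffOn ℝ ∞ ψ U)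
    (hp : ∀ y ∈ U, (lev ψ y).PosDef) {f : E n → ℂ} (hf : ContDiffOn ℝ ∞ f U) (j : Fin n) :
    ContDiffOn ℝ ∞ (av ψ f j) U := contDiffOn_rs hU hψ hp hf j

theorem wt_mul_exp (ψ : E n → ℝ) (y : E n) : wt ψ y * (Real.exp (ψ y) : ℂ) = 1 := by
  unfold wt
  rw [← Complex.ofReal_mul, ← Real.exp_add]
  simp

/-- `dz j w = - w dz j ψ` -/
theorem dz_wt {U : Set (E n)} (hU : IsOpen U) {ψ : E n → ℝ} (hψ : ContDiffOn ℝ ∞ ψ U) {y : E n}
    (hy : y ∈ U) (j : Fin n) :
    dz j (wt ψ) y = -(wt ψ y * dz j (fun z => ((ψ z : ℝ) : ℂ)) y) := by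
  have h1 : DifferentiableAt ℝ ψ y := (hψ.contDiffAt (hU.mem_nhds hy)).differentiableAt inf_ne_zero
  have h2 : DifferentiableAt ℝ (fun x : ℝ => Real.exp (-x)) (ψ y) := by fun_prop
  have h3 := dz_real_comp (g := fun x : ℝ => Real.exp (-x)) h2 h1 j
  have h4 : deriv (fun x : ℝ => Real.exp (-x)) (ψ y) = - Real.exp (-ψ y) := by
    have : HasDerivAt (fun x : ℝ => Real.exp (-x)) (Real.exp (-ψ y) * (-1)) (ψ y) :=
      (hasDerivAt_neg (ψ y)).exp
    rw [this.deriv]
    ring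
  rw [h4] at h3
  unfold wt
  rw [h3]
  push_cast
  ring

/-- `bx` as a sum of `δ_j a_j` -/
theorem bx_eq {U : Set (E n)} (hU : IsOpen U) {ψ : E n → ℝ} (hψ : ContDiffOn ℝ ∞ ψ U)
    (hp : ∀ y ∈ U, (lev ψ y).PosDef) {f : E n → ℂ} (hf : ContDiffOn ℝ ∞ f U) {y : E n}
    (hy : y ∈ U) : bx ψ f y = ∑ j, (dz j (fun z => ((ψ z : ℝ) : ℂ)) y * av ψ f j y
      - dz j (av ψ f j) y) := by
  have h := wt_mul_exp ψ y
  have h1 : ∀ j, dz j (fun z => wt ψ z * av ψ f j z) y =
      -(wt ψ y * dz j (fun z => ((ψ z : ℝ) : ℂ)) y) * av ψ f j y + wt ψ y * dz j (av ψ f j) y := by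
    intro j
    rw [dz_mul (diffAt hU (contDiffOn_wt hψ) hy) (diffAt hU (contDiffOn_av hU hψ hp hf j) hy),
      dz_wt hU hψ hy]
  have h2 : bx ψ f y = -(Real.exp (ψ y) : ℂ) * ∑ j, dz j (fun z => wt ψ z * av ψ f j z) y := rfl
  rw [h2, Finset.mul_sum]
  refine Finset.sum_congr rfl (fun j _ => ?_)
  rw [h1]
  linear_combination (dz j (fun z => ((ψ z : ℝ) : ℂ)) y * av ψ f j y - dz j (av ψ f j) y) * h

/-! ### linear algebra -/

theorem rs_comp' {Θ Θ' : Matrix (Fin n) (Fin n) ℂ} (hΘ : Θ.PosDef) (hΘ' : Θ'.PosDef)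
    {D : Matrix (Fin n) (Fin n) ℂ}
    (hD : ∀ j k, Θ j k = ∑ i, ∑ l, D i j * Θ' i l * (starRingEnd ℂ) (D l k))
    {c : ℂ} {α α' : Fin n → ℂ} (hα : ∀ k, α k = c * ∑ l, α' l * (starRingEnd ℂ) (D l k))
    (i : Fin n) : ∑ j, D i j * rs Θ α j = c * rs Θ' α' i := by
  have hu : IsUnit Θ.det := by
    rw [isUnit_iff_ne_zero]; exact (hΘ.det_pos).ne'
  have hu' : IsUnit Θ'.det := by
    rw [isUnit_iff_ne_zero]; exact (hΘ'.det_pos).ne'
  set C : Matrix (Fin n) (Fin n) ℂ := D.map (starRingEnd ℂ) with hC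
  have h1 : Θ = Dᵀ * Θ' * C := by
    ext j k
    rw [hD, Matrix.mul_apply, Finset.sum_comm]
    refine Finset.sum_congr rfl fun l _ => ?_
    rw [Matrix.mul_apply, Finset.sum_mul]
    refine Finset.sum_congr rfl fun i _ => ?_
    rw [Matrix.transpose_apply, hC, Matrix.map_apply]
  have hdet : Θ.det = D.det * Θ'.det * C.det := by
    rw [h1, Matrix.det_mul, Matrix.det_mul, Matrix.det_transpose]
  have hCu : IsUnit C.det := by
    rw [isUnit_iff_ne_zero]
    intro h
    rw [h, mul_zero] at hdet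
    exact hu.ne_zero hdet
  have hα2 : α = c • (Matrix.vecMul α' C) := by
    funext k
    rw [hα]
    rfl
  have hrs : ∀ (A : Matrix (Fin n) (Fin n) ℂ) (β : Fin n → ℂ) (j : Fin n),
      rs A β j = (Matrix.vecMul β A⁻¹) j := by
    intro A β j
    show ∑ k, A⁻¹ k j * β k = ∑ k, β k * A⁻¹ k j
    exact Finset.sum_congr rfl fun k _ => mul_comm _ _
  have h2 : ∑ j, D i j * rs Θ α j = (Matrix.vecMul (Matrix.vecMul α Θ⁻¹) Dᵀ) i := by
    show _ = ∑ j, (Matrix.vecMul α Θ⁻¹) j * Dᵀ j i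
    refine Finset.sum_congr rfl fun j _ => ?_
    rw [hrs, Matrix.transpose_apply, mul_comm]
  have h3 : C * Θ⁻¹ * Dᵀ = Θ'⁻¹ := by
    have h4 : Dᵀ * (Θ' * C * Θ⁻¹) = 1 := by
      rw [← Matrix.mul_assoc, ← Matrix.mul_assoc, ← h1, Matrix.mul_nonsing_inv _ hu]
    have h5 : (Θ' * C * Θ⁻¹) * Dᵀ = 1 := mul_eq_one_comm.1 h4
    have h6 : Θ' * (C * Θ⁻¹ * Dᵀ) = 1 := by
      rw [← Matrix.mul_assoc, ← Matrix.mul_assoc]; exact h5
    exact (Matrix.inv_eq_right_inv h6).symm
  rw [h2, hrs, Matrix.vecMul_vecMul, hα2, Matrix.smul_vecMul, Matrix.vecMul_vecMul,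
    ← Matrix.mul_assoc, h3]
  rfl

/-! ### Jacobi's formula -/

theorem hasFDerivAt_det {m : ℕ} {D : E n → Matrix (Fin m) (Fin m) ℂ}
    {D' : Fin m → Fin m → (E n →L[ℝ] ℂ)} {y : E n}
    (hD : ∀ i k, HasFDerivAt (fun z => D z i k) (D' i k) y) :
    HasFDerivAt (fun z => (D z).det) (∑ i, ∑ k, (D y).adjugate i k • D' k i) y := by
  have h1 : HasFDerivAt (fun z => (D z).det)
      (∑ σ : Equiv.Perm (Fin m), ((Equiv.Perm.sign σ : ℤ) : ℂ) •
        ∑ i, (∏ j ∈ Finset.univ.erase i, D y (σ j) j) • D' (σ i) i) y := by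
    have h2 : (fun z => (D z).det) = fun z => ∑ σ : Equiv.Perm (Fin m),
        ((Equiv.Perm.sign σ : ℤ) : ℂ) * ∏ i, D z (σ i) i := by
      funext z
      rw [Matrix.det_apply']
    rw [h2]
    refine HasFDerivAt.fun_sum fun σ _ => ?_
    refine HasFDerivAt.const_mul ?_ _
    exact HasFDerivAt.finset_prod fun i _ => hD (σ i) i
  convert h1 using 1
  ext v
  have h3 : ∀ i, ∑ k, (D y).adjugate i k * D' k i v =
      ∑ σ : Equiv.Perm (Fin m), ((Equiv.Perm.sign σ : ℤ) : ℂ) *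
        ((∏ j ∈ Finset.univ.erase i, D y (σ j) j) * D' (σ i) i v) := by
    intro i
    have h4 : ∑ k, (D y).adjugate i k * D' k i v =
        ((D y).updateCol i (fun k => D' k i v)).det := by
      rw [← Matrix.cramer_apply, Matrix.cramer_eq_adjugate_mulVec]
      rfl
    rw [h4, Matrix.det_apply']
    refine Finset.sum_congr rfl fun σ _ => ?_
    congr 1
    rw [← Finset.prod_erase_mul _ _ (Finset.mem_univ i)]
    congr 1
    · refine Finset.prod_congr rfl fun j hj => ?_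
      rw [Matrix.updateCol_ne (Finset.ne_of_mem_erase hj)]
    · rw [Matrix.updateCol_self]
  simp only [FunLike.coe_sum, Finset.sum_apply, ContinuousLinearMap.sum_apply,
    ContinuousLinearMap.smul_apply, smul_eq_mul]
  rw [Finset.sum_congr rfl fun i _ => h3 i, Finset.sum_comm]
  refine Finset.sum_congr rfl fun σ _ => ?_
  rw [Finset.mul_sum]

theorem dz_det {m : ℕ} {D : E n → Matrix (Fin m) (Fin m) ℂ} {y : E n}
    (hD : ∀ i k, DifferentiableAt ℝ (fun z => D z i k) y) (j : Fin n) :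
    dz j (fun z => (D z).det) y = ∑ i, ∑ k, (D y).adjugate i k * dz j (fun z => D z k i) y := by
  have h := hasFDerivAt_det (fun i k => (hD i k).hasFDerivAt)
  unfold dz
  rw [h.fderiv]
  simp only [ContinuousLinearMap.sum_apply, ContinuousLinearMap.smul_apply, smul_eq_mul]
  rw [Finset.mul_sum, ← Finset.sum_sub_distrib, Finset.sum_div]
  refine Finset.sum_congr rfl fun i _ => ?_
  rw [Finset.mul_sum, ← Finset.sum_sub_distrib, Finset.sum_div]
  refine Finset.sum_congr rfl fun k _ => ?_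
  ring

theorem dz_log {J : E n → ℂ} {y : E n} (hJ : DifferentiableAt ℂ J y) (h0 : J y ≠ 0) (j : Fin n) :
    dz j (fun z => ((Real.log (‖J z‖ ^ 2) : ℝ) : ℂ)) y = dz j J y / J y := by
  have hR : DifferentiableAt ℝ J y := hJ.restrictScalars ℝ
  have hC : DifferentiableAt ℝ (fun z => (starRingEnd ℂ) (J z)) y :=
    Complex.conjCLE.differentiableAt.comp y hR
  have h1 : DifferentiableAt ℝ (fun z => ‖J z‖ ^ 2) y := hR.norm_sq ℝ
  have hn : ‖J y‖ ^ 2 ≠ 0 := pow_ne_zero _ (norm_ne_zero_iff.2 h0)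
  have h2 := dz_real_comp (g := Real.log) (ψ := fun z => ‖J z‖ ^ 2) (y := y)
    (Real.differentiableAt_log hn) h1 j
  rw [h2, Real.deriv_log]
  have h3 : (fun z => ((‖J z‖ ^ 2 : ℝ) : ℂ)) = fun z => J z * (starRingEnd ℂ) (J z) := by
    funext z
    rw [Complex.mul_conj, Complex.normSq_eq_norm_sq]
  have h4 : ((‖J y‖ ^ 2 : ℝ) : ℂ) = J y * (starRingEnd ℂ) (J y) := congrFun h3 y
  have h5 : (starRingEnd ℂ) (J y) ≠ 0 := by simpa using h0
  rw [h3, dz_mul hR hC, dz_conj, db_hol hJ, map_zero, mul_zero, add_zero, Complex.ofReal_inv, h4]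
  field_simp

/-- `dz j (J^k) = k J^(k-1) dz j J` multiplied by `J` -/
theorem dz_pow {J : E n → ℂ} {y : E n} (hJ : DifferentiableAt ℝ J y) (k : ℕ) (j : Fin n) :
    J y * dz j (fun z => J z ^ k) y = k * J y ^ k * dz j J y := by
  induction k with
  | zero => simp [dz_const]
  | succ k ih =>
    have h1 : (fun z => J z ^ (k + 1)) = fun z => J z ^ k * J z := by
      funext z; rw [pow_succ]
    have hk : DifferentiableAt ℝ (fun z => J z ^ k) y := hJ.pow k
    rw [h1, dz_mul hk hJ]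
    push_cast
    linear_combination (J y) * ih

theorem db_pow_hol {J : E n → ℂ} {y : E n} (hJ : DifferentiableAt ℂ J y) (k : ℕ) (j : Fin n) :
    db j (fun z => J z ^ k) y = 0 := db_hol (hJ.pow k) j

/-- the Jacobian matrix -/
def Dm (τ : E n → E n) (z : E n) : Matrix (Fin n) (Fin n) ℂ :=
  Matrix.of fun i j => fderiv ℂ τ z (Pi.single j 1) i

theorem Dm_diff {τ : E n → E n} {z : E n} (hτ : AnalyticAt ℂ τ z) (i j : Fin n) :
    DifferentiableAt ℂ (fun w => Dm τ w i j) z := A2.hol_entry hτ _ _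

theorem Dm_eq_dz {τ : E n → E n} {z : E n} (hτ : AnalyticAt ℂ τ z) (i j : Fin n) :
    Dm τ z i j = dz j (fun w => τ w i) z := by
  have h1 : DifferentiableAt ℂ τ z := hτ.differentiableAt
  have h2 : DifferentiableAt ℂ (fun w => τ w i) z := (differentiableAt_pi.1 h1) i
  rw [dz_hol h2]
  show fderiv ℂ τ z (Pi.single j 1) i = _
  have h3 : HasFDerivAt (fun w => τ w i)
      ((ContinuousLinearMap.proj i : E n →L[ℂ] ℂ).comp (fderiv ℂ τ z)) z :=
    (hasFDerivAt_pi'.1 h1.hasFDerivAt) i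
  rw [h3.fderiv]
  rfl

theorem Dm_symm {τ : E n → E n} {z : E n} (hτ : AnalyticAt ℂ τ z) (i j m : Fin n) :
    dz m (fun w => Dm τ w i j) z = dz j (fun w => Dm τ w i m) z := by
  have h : ∀ a, (fun w => Dm τ w i a) =ᶠ[𝓝 z] dz a (fun w => τ w i) := by
    intro a
    filter_upwards [hτ.eventually_analyticAt] with w hw
    exact Dm_eq_dz hw i a
  rw [dz_congr (h j), dz_congr (h m)]
  have h2 : AnalyticAt ℝ (fun w => τ w i) z := by
    have h3 : AnalyticAt ℂ (fun w => τ w i) z :=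
      ((ContinuousLinearMap.proj i : E n →L[ℂ] ℂ).analyticAt _).comp hτ
    exact h3.restrictScalars
  exact dz_dz_comm (h2.contDiffAt.of_le le_top) m j

theorem alg1 {m : ℕ} {A D : Matrix (Fin m) (Fin m) ℂ} {c : ℂ} (h : D * A = c • 1)
    (b : Fin m → Fin m → ℂ) :
    ∑ i, ∑ k, A k i * (∑ l, b i l * D l k) = c * ∑ i, b i i := by
  rw [Finset.mul_sum]
  refine Finset.sum_congr rfl fun i _ => ?_
  have h1 : ∀ l, ∑ k, D l k * A k i = c * (1 : Matrix (Fin m) (Fin m) ℂ) l i := by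
    intro l
    rw [← Matrix.mul_apply, h, Matrix.smul_apply, smul_eq_mul]
  calc ∑ k, A k i * (∑ l, b i l * D l k) = ∑ k, ∑ l, b i l * (D l k * A k i) := by
        refine Finset.sum_congr rfl fun k _ => ?_
        rw [Finset.mul_sum]
        exact Finset.sum_congr rfl fun l _ => by ring
    _ = ∑ l, b i l * ∑ k, D l k * A k i := by
        rw [Finset.sum_comm]
        exact Finset.sum_congr rfl fun l _ => by rw [Finset.mul_sum]
    _ = c * b i i := by
        rw [Finset.sum_eq_single i]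
        · rw [h1, Matrix.one_apply_eq]; ring
        · intro l _ hl
          rw [h1, Matrix.one_apply_ne hl]; ring
        · intro hh; exact absurd (Finset.mem_univ _) hh

theorem alg2 {m : ℕ} {A D : Matrix (Fin m) (Fin m) ℂ} {c : ℂ} (h : A * D = c • 1)
    (x : Fin m → ℂ) (k : Fin m) :
    ∑ i, A k i * (∑ j, D i j * x j) = c * x k := by
  have h1 : ∀ j, ∑ i, A k i * D i j = c * (1 : Matrix (Fin m) (Fin m) ℂ) k j := by
    intro j
    rw [← Matrix.mul_apply, h, Matrix.smul_apply, smul_eq_mul]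
  calc ∑ i, A k i * (∑ j, D i j * x j) = ∑ i, ∑ j, (A k i * D i j) * x j := by
        refine Finset.sum_congr rfl fun i _ => ?_
        rw [Finset.mul_sum]
        exact Finset.sum_congr rfl fun l _ => by ring
    _ = ∑ j, (∑ i, A k i * D i j) * x j := by
        rw [Finset.sum_comm]
        exact Finset.sum_congr rfl fun l _ => by rw [Finset.sum_mul]
    _ = c * x k := by
        rw [Finset.sum_eq_single k]
        · rw [h1, Matrix.one_apply_eq]; ring
        · intro l _ hl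
          rw [h1, Matrix.one_apply_ne hl.symm]; ring
        · intro hh; exact absurd (Finset.mem_univ _) hh

/-- change of coordinates for `bx` -/
theorem bx_comp {O O' : Set (E n)} (hO : IsOpen O) (hO' : IsOpen O') {τ : E n → E n}
    (hτ : AnalyticOnNhd ℂ τ O) (hm : MapsTo τ O O') {J : E n → ℂ}
    (hJd : ∀ z ∈ O, J z = (Dm τ z).det) (hJ0 : ∀ z ∈ O, J z ≠ 0)
    {ψ ψ' : E n → ℝ} (hψ : ContDiffOn ℝ ∞ ψ O) (hψ' : ContDiffOn ℝ ∞ ψ' O')
    (hp : ∀ z ∈ O, (lev ψ z).PosDef) (hp' : ∀ z ∈ O', (lev ψ' z).PosDef) {k : ℕ}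
    (hw : ∀ z ∈ O, ψ z = ψ' (τ z) - ((k + 1 : ℕ) : ℝ) * Real.log (‖J z‖ ^ 2))
    {f f' : E n → ℂ} (hf : ContDiffOn ℝ ∞ f O) (hf' : ContDiffOn ℝ ∞ f' O')
    (ht : ∀ z ∈ O, f' (τ z) = J z ^ k * f z) {y : E n} (hy : y ∈ O) :
    bx ψ' f' (τ y) = J y ^ k * bx ψ f y := by
  -- `J` is holomorphic
  have hJan : ∀ z ∈ O, AnalyticAt ℂ J z := by
    intro z hz
    have h1 : AnalyticAt ℂ (fun w => (Dm τ w).det) z := by
      have h2 : (fun w => (Dm τ w).det) = fun w => ∑ σ : Equiv.Perm (Fin n),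
          ((Equiv.Perm.sign σ : ℤ) : ℂ) * ∏ i, Dm τ w (σ i) i := by
        funext w; rw [Matrix.det_apply']
      rw [h2]
      refine Finset.analyticAt_fun_sum _ fun σ _ => analyticAt_const.mul ?_
      refine Finset.analyticAt_fun_prod _ fun i _ => ?_
      have h3 : AnalyticAt ℂ (fun w => fderiv ℂ τ w) z := (hτ z hz).fderiv
      have h4 : AnalyticAt ℂ (fun w => fderiv ℂ τ w (Pi.single i 1)) z :=
        ((ContinuousLinearMap.apply ℂ (E n) (Pi.single i 1 : E n)).analyticAt _).comp h3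
      exact ((ContinuousLinearMap.proj (σ i) : E n →L[ℂ] ℂ).analyticAt _).comp h4
    refine h1.congr ?_
    filter_upwards [hO.mem_nhds hz] with w hw2
    exact (hJd w hw2).symm
  have hJdiff : ∀ z ∈ O, DifferentiableAt ℂ J z := fun z hz => (hJan z hz).differentiableAt
  have hJR : ∀ z ∈ O, DifferentiableAt ℝ J z := fun z hz => (hJdiff z hz).restrictScalars ℝ
  have hτd : ∀ z ∈ O, DifferentiableAt ℂ τ z := fun z hz => (hτ z hz).differentiableAt
  -- the covectors
  have hα : ∀ z ∈ O, ∀ m, dbv f z m =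
      (J z ^ k)⁻¹ * ∑ l, dbv f' (τ z) l * (starRingEnd ℂ) (Dm τ z l m) := by
    intro z hz m
    have h1 : (fun w => f' (τ w)) =ᶠ[𝓝 z] fun w => J w ^ k * f w := by
      filter_upwards [hO.mem_nhds hz] with w hw2
      exact ht w hw2
    have h2 := db_congr h1 m
    have hk : DifferentiableAt ℝ (fun w => J w ^ k) z := (hJR z hz).pow k
    rw [db_comp (hτd z hz) (diffAt hO' hf' (hm hz)), db_mul hk (diffAt hO hf hz),
      db_pow_hol (hJdiff z hz), zero_mul, zero_add] at h2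
    have h3 : (J z ^ k) ≠ 0 := pow_ne_zero _ (hJ0 z hz)
    rw [eq_inv_mul_iff_mul_eq₀ h3]
    exact h2.symm
  -- the metrics
  have hΘ : ∀ z ∈ O, ∀ j m, lev ψ z j m =
      ∑ i, ∑ l, Dm τ z i j * lev ψ' (τ z) i l * (starRingEnd ℂ) (Dm τ z l m) := by
    intro z hz j m
    have h1 : ψ =ᶠ[𝓝 z] fun w => ψ' (τ w) - ((k + 1 : ℕ) : ℝ) * Real.log (‖J w‖ ^ 2) := by
      filter_upwards [hO.mem_nhds hz] with w hw2
      exact hw w hw2
    have hψ'2 : ContDiffAt ℝ 2 ψ' (τ z) := (hψ'.contDiffAt (hO'.mem_nhds (hm hz))).of_le two_le_inf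
    have hτ2 : ContDiffAt ℝ 2 τ z := by
      have : AnalyticAt ℝ τ z := (hτ z hz).restrictScalars
      exact this.contDiffAt.of_le le_top
    have hlog : ContDiffAt ℝ 2 (fun w => Real.log (‖J w‖ ^ 2)) z := by
      have hJ2 : ContDiffAt ℝ 2 J z := by
        have : AnalyticAt ℝ J z := (hJan z hz).restrictScalars
        exact this.contDiffAt.of_le le_top
      exact (hJ2.norm_sq ℝ).log (pow_ne_zero _ (norm_ne_zero_iff.2 (hJ0 z hz)))
    have hcomp : ContDiffAt ℝ 2 (fun w => ψ' (τ w)) z := hψ'2.comp z hτ2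
    have hmul : ContDiffAt ℝ 2 (fun w => ((k + 1 : ℕ) : ℝ) * Real.log (‖J w‖ ^ 2)) z :=
      contDiffAt_const.mul hlog
    rw [lev_congr h1, lev_sub hcomp hmul,
      lev_const_mul _ hlog, lev_log_normSq (hJan z hz) (hJ0 z hz), smul_zero, sub_zero]
    exact lev_comp (hτ z hz) hψ'2 j m
  -- the vectors
  have hA : ∀ z ∈ O, ∀ i, av ψ' f' i (τ z) = J z ^ k * ∑ j, Dm τ z i j * av ψ f j z := by
    intro z hz i
    have h1 := rs_comp' (hp z hz) (hp' _ (hm hz)) (hΘ z hz) (hα z hz) i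
    have h3 : (J z ^ k) ≠ 0 := pow_ne_zero _ (hJ0 z hz)
    rw [eq_inv_mul_iff_mul_eq₀ h3] at h1
    exact h1.symm
  set a : Fin n → ℂ := fun j => av ψ f j y with ha
  set D := Dm τ y with hDdef
  set Aj := D.adjugate with hAj
  have hJD : J y = D.det := hJd y hy
  have hDA : D * Aj = (J y) • 1 := by rw [hJD]; exact Matrix.mul_adjugate D
  have hAD : Aj * D = (J y) • 1 := by rw [hJD]; exact Matrix.adjugate_mul D
  have hDR : ∀ i j, DifferentiableAt ℝ (fun w => Dm τ w i j) y := fun i j =>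
    (Dm_diff (hτ y hy) i j).restrictScalars ℝ
  have havR : ∀ j, DifferentiableAt ℝ (av ψ f j) y := fun j =>
    diffAt hO (contDiffOn_av hO hψ hp hf j) hy
  have hkR : DifferentiableAt ℝ (fun w => J w ^ k) y := (hJR y hy).pow k
  -- derivative of `J`
  have hdJ : ∀ j, dz j J y = ∑ i, ∑ l, Aj i l * dz j (fun z => Dm τ z l i) y := by
    intro j
    have h1 : J =ᶠ[𝓝 y] fun w => (Dm τ w).det := by
      filter_upwards [hO.mem_nhds hy] with w hw2
      exact hJd w hw2
    rw [dz_congr h1, dz_det hDR]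
  -- derivative of the vectors
  have hdA : ∀ i m, ∑ l, dz l (av ψ' f' i) (τ y) * D l m =
      dz m (fun w => J w ^ k) y * (∑ j, D i j * a j) +
        J y ^ k * ∑ j, (dz m (fun w => Dm τ w i j) y * a j + D i j * dz m (av ψ f j) y) := by
    intro i m
    have h1 : (fun w => av ψ' f' i (τ w)) =ᶠ[𝓝 y]
        fun w => J w ^ k * ∑ j, Dm τ w i j * av ψ f j w := by
      filter_upwards [hO.mem_nhds hy] with w hw2
      exact hA w hw2 i
    have h2 := dz_congr h1 m
    have hs : ∀ j ∈ (Finset.univ : Finset (Fin n)),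
        DifferentiableAt ℝ (fun w => Dm τ w i j * av ψ f j w) y := fun j _ => (hDR i j).mul (havR j)
    have hs2 : DifferentiableAt ℝ (fun w => ∑ j, Dm τ w i j * av ψ f j w) y :=
      DifferentiableAt.fun_sum hs
    rw [dz_comp (hτd y hy) (diffAt hO' (contDiffOn_av hO' hψ' hp' hf' i) (hm hy)),
      dz_mul hkR hs2, dz_sum _ hs] at h2
    have h3 : ∀ j, dz m (fun w => Dm τ w i j * av ψ f j w) y =
        dz m (fun w => Dm τ w i j) y * a j + D i j * dz m (av ψ f j) y := fun j =>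
      dz_mul (hDR i j) (havR j) m
    rw [Finset.sum_congr rfl fun j _ => h3 j] at h2
    exact h2
  -- trace
  have htr : J y * ∑ i, dz i (av ψ' f' i) (τ y) =
      J y * (∑ m, dz m (fun w => J w ^ k) y * a m) + J y ^ k * (∑ j, a j * dz j J y) +
        J y ^ k * (J y * ∑ m, dz m (av ψ f m) y) := by
    rw [← alg1 hDA (fun i l => dz l (av ψ' f' i) (τ y))]
    simp only [hdA]
    have e1 : ∑ i, ∑ m, Aj m i * (dz m (fun w => J w ^ k) y * (∑ j, D i j * a j)) =
        J y * (∑ m, dz m (fun w => J w ^ k) y * a m) := by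
      rw [Finset.sum_comm, Finset.mul_sum]
      refine Finset.sum_congr rfl fun m _ => ?_
      calc ∑ i, Aj m i * (dz m (fun w => J w ^ k) y * (∑ j, D i j * a j))
          = dz m (fun w => J w ^ k) y * ∑ i, Aj m i * (∑ j, D i j * a j) := by
            rw [Finset.mul_sum]
            exact Finset.sum_congr rfl fun i _ => by ring
        _ = _ := by rw [alg2 hAD]; ring
    have e2 : ∑ i, ∑ m, Aj m i * (∑ j, dz m (fun w => Dm τ w i j) y * a j) =
        ∑ j, a j * dz j J y := by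
      calc ∑ i, ∑ m, Aj m i * (∑ j, dz m (fun w => Dm τ w i j) y * a j)
          = ∑ i, ∑ m, ∑ j, a j * (Aj m i * dz j (fun w => Dm τ w i m) y) := by
            refine Finset.sum_congr rfl fun i _ => Finset.sum_congr rfl fun m _ => ?_
            rw [Finset.mul_sum]
            refine Finset.sum_congr rfl fun j _ => ?_
            rw [Dm_symm (hτ y hy) i j m]
            ring
        _ = ∑ j, ∑ m, ∑ i, a j * (Aj m i * dz j (fun w => Dm τ w i m) y) := by
            rw [Finset.sum_comm]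
            rw [Finset.sum_congr rfl fun m _ => Finset.sum_comm]
            rw [Finset.sum_comm]
        _ = _ := by
            refine Finset.sum_congr rfl fun j _ => ?_
            rw [hdJ, Finset.mul_sum]
            refine Finset.sum_congr rfl fun m _ => ?_
            rw [Finset.mul_sum]
    have e3 : ∑ i, ∑ m, Aj m i * (∑ j, D i j * dz m (av ψ f j) y) =
        J y * ∑ m, dz m (av ψ f m) y := by
      rw [Finset.sum_comm, Finset.mul_sum]
      refine Finset.sum_congr rfl fun m _ => ?_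
      rw [alg2 hAD (fun j => dz m (av ψ f j) y)]
    rw [← e1, ← e2, ← e3, Finset.mul_sum, Finset.mul_sum, ← Finset.sum_add_distrib,
      ← Finset.sum_add_distrib]
    refine Finset.sum_congr rfl fun i _ => ?_
    rw [Finset.mul_sum, Finset.mul_sum, ← Finset.sum_add_distrib, ← Finset.sum_add_distrib]
    refine Finset.sum_congr rfl fun m _ => ?_
    rw [Finset.sum_add_distrib]
    ring
  -- the weight
  have hψd : ∀ j, dz j (fun z => ((ψ z : ℝ) : ℂ)) y =
      ∑ i, dz i (fun z => ((ψ' z : ℝ) : ℂ)) (τ y) * D i j -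
        ((k + 1 : ℕ) : ℂ) * (dz j J y / J y) := by
    intro j
    have h1 : (fun z => ((ψ z : ℝ) : ℂ)) =ᶠ[𝓝 y] fun w => ((ψ' (τ w) : ℝ) : ℂ) -
        ((k + 1 : ℕ) : ℂ) * ((Real.log (‖J w‖ ^ 2) : ℝ) : ℂ) := by
      filter_upwards [hO.mem_nhds hy] with w hw2
      rw [hw w hw2]
      push_cast
      ring
    have d1 : DifferentiableAt ℝ (fun z => ((ψ' z : ℝ) : ℂ)) (τ y) :=
      diffAt hO' (contDiffOn_ofReal hψ') (hm hy)
    have d2 : DifferentiableAt ℝ (fun w => ((ψ' (τ w) : ℝ) : ℂ)) y :=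
      d1.comp y ((hτd y hy).restrictScalars ℝ)
    have d3 : DifferentiableAt ℝ (fun w => ((Real.log (‖J w‖ ^ 2) : ℝ) : ℂ)) y := by
      have h4 : DifferentiableAt ℝ (fun w => Real.log (‖J w‖ ^ 2)) y :=
        ((hJR y hy).norm_sq ℝ).log (pow_ne_zero _ (norm_ne_zero_iff.2 (hJ0 y hy)))
      exact Complex.ofRealCLM.differentiableAt.comp y h4
    have d4 : DifferentiableAt ℝ
        (fun w => ((k + 1 : ℕ) : ℂ) * ((Real.log (‖J w‖ ^ 2) : ℝ) : ℂ)) y :=
      (differentiableAt_const _).mul d3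
    rw [dz_congr h1, dz_sub d2 d4, dz_const_mul,
      dz_log (hJdiff y hy) (hJ0 y hy), dz_comp (hτd y hy) d1]
    rfl
  -- conclusion
  rw [bx_eq hO' hψ' hp' hf' (hm hy), bx_eq hO hψ hp hf hy, Finset.sum_sub_distrib,
    Finset.sum_sub_distrib]
  have hJy : J y ≠ 0 := hJ0 y hy
  have hs1 : J y ^ k * ∑ j, dz j (fun z => ((ψ z : ℝ) : ℂ)) y * a j =
      ∑ i, dz i (fun z => ((ψ' z : ℝ) : ℂ)) (τ y) * av ψ' f' i (τ y) -
        J y ^ k * (((k + 1 : ℕ) : ℂ) * ((∑ j, a j * dz j J y) / J y)) := by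
    have e1 : ∑ j, dz j (fun z => ((ψ z : ℝ) : ℂ)) y * a j =
        ∑ i, dz i (fun z => ((ψ' z : ℝ) : ℂ)) (τ y) * (∑ j, D i j * a j) -
          ((k + 1 : ℕ) : ℂ) * ((∑ j, a j * dz j J y) / J y) := by
      simp only [hψd]
      have e2 : ∑ i, dz i (fun z => ((ψ' z : ℝ) : ℂ)) (τ y) * (∑ j, D i j * a j) =
          ∑ j, (∑ i, dz i (fun z => ((ψ' z : ℝ) : ℂ)) (τ y) * D i j) * a j := by
        rw [Finset.sum_congr rfl fun i _ => Finset.mul_sum _ _ _, Finset.sum_comm]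
        refine Finset.sum_congr rfl fun j _ => ?_
        rw [Finset.sum_mul]
        exact Finset.sum_congr rfl fun i _ => by ring
      rw [e2, Finset.sum_div, Finset.mul_sum, ← Finset.sum_sub_distrib]
      exact Finset.sum_congr rfl fun j _ => by ring
    rw [e1, mul_sub, Finset.mul_sum]
    congr 1
    refine Finset.sum_congr rfl fun i _ => ?_
    rw [hA y hy i]
    ring
  have hs2 : J y * (∑ m, dz m (fun w => J w ^ k) y * a m) =
      k * J y ^ k * ∑ j, a j * dz j J y := by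
    rw [Finset.mul_sum, Finset.mul_sum]
    refine Finset.sum_congr rfl fun m _ => ?_
    have := dz_pow (hJR y hy) k m
    linear_combination a m * this
  rw [hs2] at htr
  have hs1' : ∑ j, dz j (fun z => ((ψ z : ℝ) : ℂ)) y * av ψ f j y =
    ∑ j, dz j (fun z => ((ψ z : ℝ) : ℂ)) y * a j := rfl
  rw [mul_sub, hs1', hs1]
  have h9 : J y * ((∑ j, a j * dz j J y) / J y) = ∑ j, a j * dz j J y := mul_div_cancel₀ _ hJy
  apply mul_left_cancel₀ hJy
  push_cast
  linear_combination (-1 : ℂ) * htr + (J y ^ k * (k + 1)) * h9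

end loc

end B4b

variable {n : ℕ} {M : Type*} [TopologicalSpace M] [ChartedSpace (E n) M]
  [IsManifold 𝓘(ℂ, E n) ω M]

open B4b in
/-- `∂̄^*∂̄ s` is a section (by duality) -/
theorem box_isSec {k : ℕ} {ψ : Fam n M ℝ} (hψ : IsPos (k + 1) ψ) {s : Fam n M ℂ}
    (hs : IsSec k s) : IsSec k (box ψ s) := by
  refine ⟨fun e he => contDiffOn_bx e.open_target (hψ.smooth e he) (hψ.pos e he)
    (hs.smooth e he), ?_⟩
  intro e he e' he' x hx
  have hO := isOpen_trans e e'
  have hxO : e x ∈ e.target ∩ e.symm ⁻¹' e'.source := by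
    refine ⟨e.map_source hx.1, ?_⟩
    show e.symm (e x) ∈ e'.source
    rw [e.left_inv hx.1]
    exact hx.2
  have hsrc : ∀ z ∈ e.target ∩ e.symm ⁻¹' e'.source, e.symm z ∈ e.source ∩ e'.source :=
    fun z hz => ⟨e.map_target hz.1, hz.2⟩
  have h := bx_comp (k := k) (O := e.target ∩ e.symm ⁻¹' e'.source) (O' := e'.target) hO
    e'.open_target (τ := fun z => e' (e.symm z)) (trans_analytic he he')
    (fun z hz => e'.map_source hz.2) (J := jac e e') (fun z hz => jac_eq_det e e' z)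
    (fun z hz => by
      have := jac_ne_zero he he' (hsrc z hz).1 (hsrc z hz).2
      rwa [e.right_inv hz.1] at this)
    (ψ := ψ e) (ψ' := ψ e') ((hψ.smooth e he).mono inter_subset_left) (hψ.smooth e' he')
    (fun z hz => hψ.pos e he z hz.1) (hψ.pos e' he')
    (fun z hz => by
      have := hψ.trans e he e' he' (e.symm z) (hsrc z hz)
      rwa [e.right_inv hz.1] at this)
    (f := s e) (f' := s e') ((hs.smooth e he).mono inter_subset_left) (hs.smooth e' he')
    (fun z hz => by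
      have := hs.trans e he e' he' (e.symm z) (hsrc z hz)
      rwa [e.right_inv hz.1] at this) hxO
  show bx (ψ e') (s e') (e' x) = jac e e' (e x) ^ k * bx (ψ e) (s e) (e x)
  have h2 : e' (e.symm (e x)) = e' x := by rw [e.left_inv hx.1]
  rw [← h, h2]

end Pool.Agent.helper63.NU
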