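import Pool.Agent.helper69.NU.A9
import Pool.Agent.helper69.NU.B1

set_option autoImplicit false
set_option linter.all false

/-! Module B2: sections, partitions of unity, extension and cutting off. -/

open MeasureTheory Filter Topology Set
open scoped ContDiff Manifold Matrix ENNReal ComplexOrder

noncomputable section

namespace Pool.Agent.helper63.NU

variable {n : ℕ} {M : Type*} [TopologicalSpace M] [ChartedSpace (E n) M]
  [IsManifold 𝓘(ℂ, E n) ω M]

namespace B2aux

omit [ChartedSpace (E n) M] [IsManifold 𝓘(ℂ, E n) ω M] in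
/-- A function on the target of a chart which is smooth on the overlap with another chart and
vanishes off a closed set contained in the source of the other chart is smooth. -/
theorem glue {F : Type*} [NormedAddCommGroup F] [NormedSpace ℝ F]
    {e e' : Ch n M} {K : Set M} (hK : IsClosed K) (hKe : K ⊆ e.source) {H : E n → F}
    (h1 : ContDiffOn ℝ ∞ H (e'.target ∩ e'.symm ⁻¹' e.source))
    (h2 : ∀ y ∈ e'.target, e'.symm y ∉ K → H y = 0) : ContDiffOn ℝ ∞ H e'.target := by
  intro y hy
  refine ContDiffAt.contDiffWithinAt ?_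
  by_cases h : e'.symm y ∈ e.source
  · have ho : IsOpen (e'.target ∩ e'.symm ⁻¹' e.source) := e'.symm.isOpen_inter_preimage e.open_source
    exact (h1 y ⟨hy, h⟩).contDiffAt (ho.mem_nhds ⟨hy, h⟩)
  · have ho : IsOpen (e'.target ∩ e'.symm ⁻¹' Kᶜ) := e'.symm.isOpen_inter_preimage hK.isOpen_compl
    have hy' : y ∈ e'.target ∩ e'.symm ⁻¹' Kᶜ := ⟨hy, fun hh => h (hKe hh)⟩
    have : H =ᶠ[𝓝 y] fun _ => (0 : F) := by
      filter_upwards [ho.mem_nhds hy'] with z hz
      exact h2 z hz.1 hz.2
    exact (contDiffAt_const (c := (0 : F))).congr_of_eventuallyEq this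

theorem jac_contDiffOn {e e' : Ch n M} (he : e ∈ atlas (E n) M) (he' : e' ∈ atlas (E n) M) :
    ContDiffOn ℝ ∞ (jac e e') (e.target ∩ e.symm ⁻¹' e'.source) := by
  intro y hy
  have h := (jac_analytic he he') y hy
  have h2 : AnalyticAt ℝ (jac e e') y := h.restrictScalars
  exact (h2.contDiffAt.of_le le_top).contDiffWithinAt

omit [IsManifold 𝓘(ℂ, E n) ω M] in
theorem bump_exists [T2Space M] (x : M) {U : Set M} (hU : U ∈ 𝓝 x) :
    ∃ (b : ContDiffBump (chartAt (E n) x x)) ,
      Metric.closedBall (chartAt (E n) x x) b.rOut ⊆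
        (chartAt (E n) x).target ∩ (chartAt (E n) x).symm ⁻¹' U := by
  set e := chartAt (E n) x with he
  have hx : x ∈ e.source := mem_chart_source _ x
  have h1 : e.target ∩ e.symm ⁻¹' U ∈ 𝓝 (e x) := by
    refine inter_mem (e.open_target.mem_nhds (e.map_source hx)) ?_
    have := e.continuousAt_symm (e.map_source hx)
    refine this.preimage_mem_nhds ?_
    rwa [e.left_inv hx]
  obtain ⟨r, hr, hr2⟩ := Metric.nhds_basis_closedBall.mem_iff.1 h1
  exact ⟨⟨r / 2, r, by positivity, by linarith⟩, hr2⟩

end B2aux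

open B2aux in
/-- finite smooth partition of unity subordinate to a given choice of neighbourhoods; the charts
are the charts `chartAt (p i)` -/
theorem exists_partition [CompactSpace M] [T2Space M] (U : M → Set M) (hU : ∀ x, U x ∈ 𝓝 x) :
    ∃ (N : ℕ) (p : Fin N → M) (χ : Fin N → M → ℝ),
      (∀ i, Sm n fun x => ((χ i x : ℝ) : ℂ)) ∧ (∀ i x, 0 ≤ χ i x) ∧ (∀ x, ∑ i, χ i x = 1) ∧
      ∀ i, tsupport (χ i) ⊆ U (p i) ∩ (chartAt (E n) (p i)).source := by
  classical
  have hb := fun x => bump_exists (n := n) x (hU x)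
  choose b hb using hb
  -- the compact sets
  set K : M → Set M := fun x => (chartAt (E n) x).symm '' Metric.closedBall (chartAt (E n) x x) (b x).rOut
    with hKdef
  have hKc : ∀ x, IsCompact (K x) := fun x =>
    (isCompact_closedBall _ _).image_of_continuousOn
      ((chartAt (E n) x).continuousOn_symm.mono fun y hy => (hb x hy).1)
  have hKcl : ∀ x, IsClosed (K x) := fun x => (hKc x).isClosed
  have hKs : ∀ x, K x ⊆ (chartAt (E n) x).source := by
    rintro x _ ⟨y, hy, rfl⟩
    exact (chartAt (E n) x).map_target (hb x hy).1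
  have hKU : ∀ x, K x ⊆ U x := by
    rintro x _ ⟨y, hy, rfl⟩
    exact (hb x hy).2
  -- the bump functions
  set g : M → M → ℝ := fun x m => if m ∈ (chartAt (E n) x).source then b x (chartAt (E n) x m) else 0
    with hgdef
  have hg0 : ∀ x m, 0 ≤ g x m := by
    intro x m
    simp only [hgdef]
    split_ifs
    · exact (b x).nonneg
    · exact le_rfl
  have hgK : ∀ x m, m ∉ K x → g x m = 0 := by
    intro x m hm
    simp only [hgdef]
    split_ifs with h
    · by_contra h2
      have h3 : chartAt (E n) x m ∈ Function.support (b x) := h2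
      rw [(b x).support_eq] at h3
      exact hm ⟨chartAt (E n) x m, Metric.ball_subset_closedBall h3, (chartAt (E n) x).left_inv h⟩
    · rfl
  have hgself : ∀ x, 0 < g x x := by
    intro x
    simp only [hgdef, mem_chart_source, if_true]
    have := (b x).pos_of_mem_ball (x := chartAt (E n) x x) (Metric.mem_ball_self (b x).rOut_pos)
    exact this
  have hgsm : ∀ x, ∀ e' ∈ atlas (E n) M, ContDiffOn ℝ ∞ (fun y => g x (e'.symm y)) e'.target := by
    intro x e' he'
    refine glue (e := chartAt (E n) x) (hKcl x) (hKs x) ?_ fun y hy h => hgK x _ h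
    have h1 := trans_contDiffOn he' (chart_mem_atlas (E n) x)
    have h2 : ContDiffOn ℝ ∞ (fun y => b x (chartAt (E n) x (e'.symm y)))
        (e'.target ∩ e'.symm ⁻¹' (chartAt (E n) x).source) :=
      (b x).contDiff.comp_contDiffOn h1
    refine h2.congr fun y hy => ?_
    have hy2 : e'.symm y ∈ (chartAt (E n) x).source := hy.2
    simp only [hgdef]
    rw [if_pos hy2]
  have hgc : ∀ x, Continuous (g x) := by
    intro x
    rw [continuous_iff_continuousAt]
    intro m
    have h1 := (hgsm x (chartAt (E n) m) (chart_mem_atlas _ m)).continuousOn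
    have h2 : ContinuousOn (fun z => g x ((chartAt (E n) m).symm (chartAt (E n) m z)))
        (chartAt (E n) m).source :=
      h1.comp (chartAt (E n) m).continuousOn fun z hz => (chartAt (E n) m).map_source hz
    have h3 : ContinuousOn (g x) (chartAt (E n) m).source :=
      h2.congr fun z hz => by
        show g x z = g x ((chartAt (E n) m).symm (chartAt (E n) m z))
        rw [(chartAt (E n) m).left_inv hz]
    exact h3.continuousAt ((chartAt (E n) m).open_source.mem_nhds (mem_chart_source _ m))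
  -- the finite cover
  obtain ⟨t, ht⟩ := isCompact_univ.elim_finite_subcover (fun x => {m | 0 < g x m})
    (fun x => isOpen_lt continuous_const (hgc x)) fun m _ => mem_iUnion.2 ⟨m, hgself m⟩
  set N := t.card with hN
  let p : Fin N → M := fun i => (t.equivFin.symm i : M)
  have hsum : ∀ m, 0 < ∑ i, g (p i) m := by
    intro m
    obtain ⟨x, hx, hx2⟩ := mem_iUnion₂.1 (ht (mem_univ m))
    refine Finset.sum_pos' (fun i _ => hg0 _ _) ⟨t.equivFin ⟨x, hx⟩, Finset.mem_univ _, ?_⟩
    simpa [p] using hx2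
  refine ⟨N, p, fun i m => g (p i) m / ∑ j, g (p j) m, ?_, ?_, ?_, ?_⟩
  · intro i e' he'
    have h1 : ContDiffOn ℝ ∞ (fun y => g (p i) (e'.symm y) / ∑ j, g (p j) (e'.symm y)) e'.target :=
      (hgsm (p i) e' he').div (ContDiffOn.sum fun j _ => hgsm (p j) e' he') fun y hy => (hsum _).ne'
    exact Complex.ofRealCLM.contDiff.comp_contDiffOn h1
  · intro i m
    exact div_nonneg (hg0 _ _) (hsum m).le
  · intro m
    rw [← Finset.sum_div, div_self (hsum m).ne']
  · intro i
    have h1 : tsupport (fun m => g (p i) m / ∑ j, g (p j) m) ⊆ K (p i) := by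
      refine closure_minimal ?_ (hKcl _)
      intro m hm
      by_contra h
      exact hm (by simp [hgK _ _ h])
    exact fun m hm => ⟨hKU _ (h1 hm), hKs _ (h1 hm)⟩


omit [IsManifold 𝓘(ℂ, E n) ω M] in
theorem B2aux.ext_of_mem (k : ℕ) (e : Ch n M) (u : E n → ℂ) {e' : Ch n M} {x : M}
    (hx : x ∈ e'.source) (hx' : x ∈ e.source) :
    (ext k e u : Fam n M ℂ) e' (e' x) = jac e e' (e x) ^ k * u (e x) := by
  have h1 : e' x ∈ e'.target ∧ e'.symm (e' x) ∈ e.source := by
    refine ⟨e'.map_source hx, ?_⟩
    rwa [e'.left_inv hx]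
  simp only [ext]
  rw [if_pos h1, e'.left_inv hx]

omit [IsManifold 𝓘(ℂ, E n) ω M] in
theorem B2aux.ext_of_notMem (k : ℕ) (e : Ch n M) (u : E n → ℂ) {e' : Ch n M} {x : M}
    (hx : x ∈ e'.source) (hx' : x ∉ e.source) :
    (ext k e u : Fam n M ℂ) e' (e' x) = 0 := by
  have h1 : ¬ (e' x ∈ e'.target ∧ e'.symm (e' x) ∈ e.source) := by
    rw [e'.left_inv hx]
    exact fun h => hx' h.2
  simp only [ext]
  rw [if_neg h1]

open B2aux in
theorem ext_isSec [T2Space M] (k : ℕ) {e : Ch n M} (he : e ∈ atlas (E n) M) {u : E n → ℂ}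
    (hu : ContDiff ℝ ∞ u) (hc : HasCompactSupport u) (hs : tsupport u ⊆ e.target) :
    IsSec k (ext k e u : Fam n M ℂ) := by
  have hKc : IsCompact (e.symm '' tsupport u) :=
    IsCompact.image_of_continuousOn hc (e.continuousOn_symm.mono hs)
  have hKe : e.symm '' tsupport u ⊆ e.source := by
    rintro _ ⟨y, hy, rfl⟩
    exact e.map_target (hs hy)
  constructor
  · intro e' he'
    refine glue hKc.isClosed hKe ?_ ?_
    · have h1 := trans_contDiffOn he' he
      have h2 := jac_contDiffOn he he'
      have h3 : MapsTo (fun y => e (e'.symm y)) (e'.target ∩ e'.symm ⁻¹' e.source)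
          (e.target ∩ e.symm ⁻¹' e'.source) := by
        intro y hy
        refine ⟨e.map_source hy.2, ?_⟩
        show e.symm (e (e'.symm y)) ∈ e'.source
        rw [e.left_inv hy.2]
        exact e'.map_target hy.1
      have h4 := (h2.comp h1 h3).pow k
      have h5 := hu.comp_contDiffOn h1
      refine (h4.mul h5).congr fun y hy => ?_
      have h6 := ext_of_mem k e u (e' := e') (x := e'.symm y) (e'.map_target hy.1) hy.2
      rw [e'.right_inv hy.1] at h6
      exact h6
    · intro y hy hyK
      by_cases h : e'.symm y ∈ e.source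
      · have h6 := ext_of_mem k e u (e' := e') (x := e'.symm y) (e'.map_target hy) h
        rw [e'.right_inv hy] at h6
        rw [h6]
        have h7 : u (e (e'.symm y)) = 0 := by
          by_contra h8
          exact hyK ⟨e (e'.symm y), subset_tsupport _ h8, e.left_inv h⟩
        rw [h7, mul_zero]
      · have h6 := ext_of_notMem k e u (e' := e') (x := e'.symm y) (e'.map_target hy) h
        rw [e'.right_inv hy] at h6
        exact h6
  · intro e₁ he₁ e₂ he₂ x hx
    by_cases h : x ∈ e.source
    · rw [ext_of_mem k e u hx.2 h, ext_of_mem k e u hx.1 h, jac_mul he he₁ he₂ h hx.1 hx.2, mul_pow]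
      ring
    · rw [ext_of_notMem k e u hx.2 h, ext_of_notMem k e u hx.1 h, mul_zero]

open B2aux in
theorem ext_apply (k : ℕ) {e : Ch n M} (he : e ∈ atlas (E n) M) (u : E n → ℂ) {y : E n}
    (hy : y ∈ e.target) : (ext k e u : Fam n M ℂ) e y = u y := by
  have h6 := ext_of_mem k e u (e' := e) (x := e.symm y) (e.map_target hy) (e.map_target hy)
  rw [jac_self he (e.map_target hy), e.right_inv hy, one_pow, one_mul] at h6
  exact h6

/-- multiplication of a section by a smooth function -/
theorem IsSec.smul_fun {k : ℕ} {s : Fam n M ℂ} (hs : IsSec k s) {f : M → ℂ} (hf : Sm n f) :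
    IsSec k (fun e y => f (e.symm y) * s e y : Fam n M ℂ) := by
  refine ⟨fun e he => (hf e he).mul (hs.smooth e he), ?_⟩
  intro e he e' he' x hx
  show f (e'.symm (e' x)) * s e' (e' x) = _ * (f (e.symm (e x)) * s e (e x))
  rw [e'.left_inv hx.2, e.left_inv hx.1, hs.trans e he e' he' x hx]
  ring

theorem B2aux.indicator_supp [T2Space M] {e : Ch n M} {χ : M → ℝ} {f : E n → ℂ}
    (hsupp : tsupport χ ⊆ e.source) :
    Function.support (Set.indicator e.target fun y => ((χ (e.symm y) : ℝ) : ℂ) * f y) ⊆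
      e '' tsupport χ := by
  intro y hy
  have h1 : y ∈ e.target := by
    by_contra h
    exact hy (indicator_of_notMem h _)
  rw [Function.mem_support, indicator_of_mem h1] at hy
  have h2 : χ (e.symm y) ≠ 0 := by
    intro h
    exact hy (by rw [h]; simp)
  exact ⟨e.symm y, subset_tsupport _ h2, e.right_inv h1⟩

/-- cutting off a section by a function with compact support in a chart -/
theorem contDiff_cut [T2Space M] {k : ℕ} {s : Fam n M ℂ} (hs : IsSec k s) {e : Ch n M}
    (he : e ∈ atlas (E n) M) {χ : M → ℝ} (hχ : Sm n fun x => ((χ x : ℝ) : ℂ))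
    (hc : IsCompact (tsupport χ)) (hsupp : tsupport χ ⊆ e.source) :
    ContDiff ℝ ∞ (Set.indicator e.target fun y => ((χ (e.symm y) : ℝ) : ℂ) * s e y) ∧
    HasCompactSupport (Set.indicator e.target fun y => ((χ (e.symm y) : ℝ) : ℂ) * s e y) ∧
    tsupport (Set.indicator e.target fun y => ((χ (e.symm y) : ℝ) : ℂ) * s e y) ⊆ e.target := by
  have hK : IsCompact (e '' tsupport χ) := hc.image_of_continuousOn (e.continuousOn.mono hsupp)
  have h1 := B2aux.indicator_supp (e := e) (f := s e) hsupp
  have h2 : tsupport (Set.indicator e.target fun y => ((χ (e.symm y) : ℝ) : ℂ) * s e y) ⊆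
      e '' tsupport χ := closure_minimal h1 hK.isClosed
  have h3 : e '' tsupport χ ⊆ e.target := by
    rintro _ ⟨x, hx, rfl⟩
    exact e.map_source (hsupp hx)
  refine ⟨?_, HasCompactSupport.intro hK fun y hy => ?_, h2.trans h3⟩
  · rw [contDiff_iff_contDiffAt]
    intro y
    by_cases hy : y ∈ e.target
    · have h4 : ContDiffOn ℝ ∞ (fun y => ((χ (e.symm y) : ℝ) : ℂ) * s e y) e.target :=
        (hχ e he).mul (hs.smooth e he)
      refine ((h4 y hy).contDiffAt (e.open_target.mem_nhds hy)).congr_of_eventuallyEq ?_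
      filter_upwards [e.open_target.mem_nhds hy] with z hz
      exact indicator_of_mem hz _
    · have h4 : (e '' tsupport χ)ᶜ ∈ 𝓝 y :=
        hK.isClosed.isOpen_compl.mem_nhds fun h => hy (h3 h)
      refine (contDiffAt_const (c := (0 : ℂ))).congr_of_eventuallyEq ?_
      filter_upwards [h4] with z hz
      by_contra h5
      exact hz (h1 h5)
  · by_contra h
    exact hy (h1 h)

theorem ext_cut [T2Space M] {k : ℕ} {s : Fam n M ℂ} (hs : IsSec k s) {e : Ch n M}
    (he : e ∈ atlas (E n) M) {χ : M → ℝ} (hsupp : tsupport χ ⊆ e.source)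
    {e' : Ch n M} (he' : e' ∈ atlas (E n) M) {y : E n} (hy : y ∈ e'.target) :
    (ext k e (Set.indicator e.target fun y => ((χ (e.symm y) : ℝ) : ℂ) * s e y) : Fam n M ℂ) e' y
      = ((χ (e'.symm y) : ℝ) : ℂ) * s e' y := by
  by_cases h : e'.symm y ∈ e.source
  · have h6 := B2aux.ext_of_mem k e
      (Set.indicator e.target fun y => ((χ (e.symm y) : ℝ) : ℂ) * s e y) (e' := e')
      (x := e'.symm y) (e'.map_target hy) h
    rw [e'.right_inv hy, indicator_of_mem (e.map_source h), e.left_inv h] at h6
    rw [h6]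
    have h7 := hs.trans e he e' he' (e'.symm y) ⟨h, e'.map_target hy⟩
    rw [e'.right_inv hy] at h7
    rw [h7]
    ring
  · have h6 := B2aux.ext_of_notMem k e
      (Set.indicator e.target fun y => ((χ (e.symm y) : ℝ) : ℂ) * s e y) (e' := e')
      (x := e'.symm y) (e'.map_target hy) h
    rw [e'.right_inv hy] at h6
    have h7 : χ (e'.symm y) = 0 := by
      by_contra h8
      exact h (hsupp (subset_tsupport _ h8))
    rw [h6, h7]
    simp

theorem IsSec.add {k : ℕ} {s t : Fam n M ℂ} (hs : IsSec k s) (ht : IsSec k t) :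
    IsSec k (s + t) := by
  refine ⟨fun e he => (hs.smooth e he).add (ht.smooth e he), fun e he e' he' x hx => ?_⟩
  show s e' (e' x) + t e' (e' x) = _ * (s e (e x) + t e (e x))
  rw [hs.trans e he e' he' x hx, ht.trans e he e' he' x hx]
  ring

theorem IsSec.sub {k : ℕ} {s t : Fam n M ℂ} (hs : IsSec k s) (ht : IsSec k t) :
    IsSec k (s - t) := by
  refine ⟨fun e he => (hs.smooth e he).sub (ht.smooth e he), fun e he e' he' x hx => ?_⟩
  show s e' (e' x) - t e' (e' x) = _ * (s e (e x) - t e (e x))
  rw [hs.trans e he e' he' x hx, ht.trans e he e' he' x hx]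
  ring

theorem IsSec.smul {k : ℕ} {s : Fam n M ℂ} (hs : IsSec k s) (c : ℂ) : IsSec k (c • s) := by
  refine ⟨fun e he => (hs.smooth e he).const_smul c, fun e he e' he' x hx => ?_⟩
  show c * s e' (e' x) = _ * (c * s e (e x))
  rw [hs.trans e he e' he' x hx]
  ring

theorem IsSec.zero (k : ℕ) : IsSec k (0 : Fam n M ℂ) := by
  refine ⟨fun e he => contDiffOn_const, fun e he e' he' x hx => ?_⟩
  show (0 : ℂ) = _ * 0
  rw [mul_zero]

theorem IsSec.sum {k : ℕ} {ι : Type*} (t : Finset ι) {s : ι → Fam n M ℂ}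
    (hs : ∀ i ∈ t, IsSec k (s i)) : IsSec k (∑ i ∈ t, s i) := by
  classical
  induction t using Finset.induction_on with
  | empty => rw [Finset.sum_empty]; exact IsSec.zero k
  | insert i t hi ih =>
    rw [Finset.sum_insert hi]
    exact (hs i (Finset.mem_insert_self _ _)).add
      (ih fun j hj => hs j (Finset.mem_insert_of_mem hj))

theorem IsHol.add {k : ℕ} {s t : Fam n M ℂ} (hs : IsHol k s) (ht : IsHol k t) :
    IsHol k (s + t) :=
  ⟨hs.toIsSec.add ht.toIsSec, fun e he => (hs.hol e he).add (ht.hol e he)⟩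

theorem IsHol.sub {k : ℕ} {s t : Fam n M ℂ} (hs : IsHol k s) (ht : IsHol k t) :
    IsHol k (s - t) :=
  ⟨hs.toIsSec.sub ht.toIsSec, fun e he => (hs.hol e he).sub (ht.hol e he)⟩

theorem IsHol.smul {k : ℕ} {s : Fam n M ℂ} (hs : IsHol k s) (c : ℂ) : IsHol k (c • s) :=
  ⟨hs.toIsSec.smul c, fun e he => (hs.hol e he).const_smul c⟩

theorem IsHol.sum {k : ℕ} {ι : Type*} (t : Finset ι) {s : ι → Fam n M ℂ}
    (hs : ∀ i ∈ t, IsHol k (s i)) : IsHol k (∑ i ∈ t, s i) := by
  classical
  induction t using Finset.induction_on with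
  | empty =>
    rw [Finset.sum_empty]
    exact ⟨IsSec.zero k, fun e he => differentiableOn_const _⟩
  | insert i t hi ih =>
    rw [Finset.sum_insert hi]
    exact (hs i (Finset.mem_insert_self _ _)).add
      (ih fun j hj => hs j (Finset.mem_insert_of_mem hj))

/-- a family of functions holomorphic in the charts with the transformation rule is a section -/
theorem isHol_of {k : ℕ} {s : Fam n M ℂ} (h : ∀ e ∈ atlas (E n) M, DifferentiableOn ℂ (s e) e.target)
    (ht : ∀ e ∈ atlas (E n) M, ∀ e' ∈ atlas (E n) M, ∀ x ∈ e.source ∩ e'.source,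
      s e' (e' x) = jac e e' (e x) ^ k * s e (e x)) : IsHol k s :=
  ⟨⟨fun e he => contDiffOn_real_of_hol e.open_target (h e he), ht⟩, h⟩

/-- smooth functions are the sections of `-0K` -/
theorem isSec_zero_iff {f : M → ℂ} : Sm n f ↔ IsSec 0 (fun e y => f (e.symm y) : Fam n M ℂ) := by
  constructor
  · intro h
    refine ⟨h, fun e he e' he' x hx => ?_⟩
    show f (e'.symm (e' x)) = _ * f (e.symm (e x))
    rw [e'.left_inv hx.2, e.left_inv hx.1, pow_zero, one_mul]
  · intro h
    exact h.smooth

end Pool.Agent.helper63.NU
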