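import Pool.Agent.helper63.NU.Defs3
import Pool.Agent.helper63.NU.T
import Pool.Agent.helper45.NU.Q1
import Pool.Agent.helper74.NU.Q2
import Pool.Agent.helper14.NU.Q3b
import Pool.Agent.helper91.NU.Q4b

set_option autoImplicit false
set_option linter.all false

/-! Module Q5: equality implies Kähler-Einstein. -/

open MeasureTheory Filter Topology Set
open scoped ContDiff Manifold Matrix ENNReal ComplexOrder

noncomputable section

namespace Pool.Agent.helper63.NU

variable {n : ℕ} {M : Type*} [TopologicalSpace M] [ChartedSpace (E n) M]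
  [IsManifold 𝓘(ℂ, E n) ω M]
variable [CompactSpace M] [T2Space M] [ConnectedSpace M]
variable [MeasurableSpace M] [BorelSpace M] {μ : Measure M} {φ : Fam n M ℝ}

namespace Q5

/-- the error terms tend to zero -/
theorem small_error {Q B : ℝ} (hQ : 0 < Q) {δ : ℝ} (hδ : 0 < δ) :
    ∀ᶠ k : ℕ in atTop, Real.log (Q ^ (1 / ((k : ℝ) + 1))) + B * (Q ^ (1 / ((k : ℝ) + 1)) - 1) < δ := by
  have hlim : Tendsto (fun k : ℕ => Real.log (Q ^ (1 / ((k : ℝ) + 1)))
        + B * (Q ^ (1 / ((k : ℝ) + 1)) - 1)) atTop (𝓝 (Real.log 1 + B * (1 - 1))) := by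
    have h1 : Tendsto (fun k : ℕ => Q ^ (1 / ((k : ℝ) + 1))) atTop (𝓝 1) := by
      have h2 : Tendsto (fun k : ℕ => 1 / ((k : ℝ) + 1)) atTop (𝓝 0) :=
        tendsto_one_div_add_atTop_nhds_zero_nat
      have h3 := (Real.continuous_const_rpow hQ.ne').tendsto (0 : ℝ)
      rw [Real.rpow_zero] at h3
      exact h3.comp h2
    exact ((Real.continuousAt_log one_ne_zero).tendsto.comp h1).add ((h1.sub_const 1).const_mul B)
  rw [Real.log_one, sub_self, mul_zero, add_zero] at hlim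
  exact hlim.eventually (gt_mem_nhds hδ)

/-- the dimension bound -/
theorem dim_le [IsProbabilityMeasure μ] (hn : 0 < n) (hφ : IsPos 1 φ) (hμ : IsDens μ φ)
    (heq : n * Real.log (Real.pi * (n + 1)) - Real.log n.factorial
      ≤ ∫ x, Real.log (dl φ x) ∂μ) {η : ℝ} (hη : 0 < η) :
    ∃ k₀ : ℕ, ∀ k ≥ k₀, (Module.finrank ℂ (H0 n M k) : ℝ)
      ≤ ((n + 1) ^ n / n.factorial + η) * (k : ℝ) ^ n := by
  haveI : Nonempty M := ConnectedSpace.toNonempty
  have hdlc := continuous_dl hφ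
  obtain ⟨xm, -, hxm⟩ := isCompact_univ.exists_isMinOn (univ_nonempty (α := M)) hdlc.continuousOn
  obtain ⟨xM, -, hxM⟩ := isCompact_univ.exists_isMaxOn (univ_nonempty (α := M)) hdlc.continuousOn
  have hlc : Continuous fun x => Real.log (dl φ x) := hdlc.log fun x => (dl_pos hφ x).ne'
  obtain ⟨xB, -, hxB⟩ := isCompact_univ.exists_isMaxOn (univ_nonempty (α := M))
    hlc.abs.continuousOn
  set B := |Real.log (dl φ xB)| with hBdef
  have hB : ∀ x, |Real.log (dl φ x)| ≤ B := fun x => hxB (mem_univ x)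
  have hπ := Real.pi_pos
  obtain ⟨G, hG⟩ := ord_le hφ hμ
  obtain ⟨δ, hδ, k₁, hk₁⟩ := entropy_stab hn G hη
  obtain ⟨C, hC, hup⟩ := onb_upper hφ hμ
  -- choose `ε`
  obtain ⟨ε, hε, hε1, hεδ⟩ : ∃ ε : ℝ, 0 < ε ∧ ε < 1 ∧ -Real.log (1 - ε) ≤ δ / 4 := by
    refine ⟨1 - Real.exp (-(δ / 4)), ?_, ?_, ?_⟩
    · have : Real.exp (-(δ / 4)) < 1 := by
        rw [Real.exp_lt_one_iff]; linarith
      linarith
    · have := Real.exp_pos (-(δ / 4))
      linarith
    · rw [sub_sub_cancel, Real.log_exp]; linarith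
  obtain ⟨k₂, hk₂⟩ := onb_lower hφ hμ hε hε1
  have hε2 : 0 < 1 - ε := by linarith
  set Q : ℝ := C * Real.pi ^ n / (1 - ε) with hQ
  have hQp : 0 < Q := by positivity
  have hδ4 : 0 < δ / 4 := by linarith
  obtain ⟨k₃, hk₃⟩ := eventually_atTop.1 (small_error (B := B) hQp hδ4)
  obtain ⟨k₄, hk₄⟩ : ∃ k₄ : ℕ, (n + δ / 4) / (3 * δ / 4) ≤ (k₄ : ℝ) := exists_nat_ge _
  refine ⟨max (max k₁ k₂) (max (max k₃ k₄) 1), fun k hk => ?_⟩
  have hk1 : k₁ ≤ k := (le_max_left _ _).trans ((le_max_left _ _).trans hk)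
  have hk2 : k₂ ≤ k := (le_max_right _ _).trans ((le_max_left _ _).trans hk)
  have hk3 : k₃ ≤ k := (le_max_left _ _).trans ((le_max_left _ _).trans ((le_max_right _ _).trans hk))
  have hk4 : k₄ ≤ k := (le_max_right _ _).trans ((le_max_left _ _).trans ((le_max_right _ _).trans hk))
  have hk5 : 1 ≤ k := (le_max_right _ _).trans ((le_max_right _ _).trans hk)
  have hkp : (0 : ℝ) < k := by exact_mod_cast hk5
  obtain ⟨N, s, hs⟩ := onb_exists hφ hμ hk5
  obtain ⟨-, hlow⟩ := hk₂ k hk2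
  obtain ⟨hN, hlo⟩ := hlow N s hs
  have hupk := hup k hk5 N s hs
  have hsec : ∀ j, IsSec k (s j) := fun j => (hs.1 j).1.toIsSec
  set m : ℝ := (1 - ε) * (k / Real.pi) ^ n with hm
  have hmp : 0 < m := by positivity
  set θ : ℝ := 1 / ((k : ℝ) + 1) with hθ
  have hθp : 0 < θ := by positivity
  have hθk : θ * k < 1 := by
    rw [hθ, one_div, inv_mul_lt_iff₀ (by positivity)]; linarith
  obtain ⟨Bs, g, hcard, hideal, hdeg, hg0, hg1, hmono, hmean, hent⟩ :=
    level2 hn hφ hμ hk5 hN hs hmp hlo hupk hθp hθk (A0 := G * k)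
      (fun e he p hp t ht ht0 m hv => hG k hk5 e he p hp t ht ht0 m hv) hδ4
  have h2 := replace_density (μ := μ) (g := dl φ) (ρ := fun x => ∑ j, nrm k φ (s j) x)
      hdlc.measurable (Finset.measurable_sum _ fun j _ =>
        (continuous_nrm hφ.toIsWeight (hsec j)).measurable) (dl_pos hφ xm)
      (fun x => hxm (mem_univ x)) (fun x => hxM (mem_univ x)) hmp hlo hupk hθp hB
  have h3 : C * (k : ℝ) ^ n / m = Q := by
    rw [hm, hQ, div_pow]
    field_simp
  rw [h3] at h2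
  have hsmall := hk₃ k hk3
  have hlogm : Real.log m = Real.log (1 - ε) + n * (Real.log k - Real.log Real.pi) := by
    rw [hm, Real.log_mul hε2.ne' (by positivity), Real.log_pow,
      Real.log_div hkp.ne' hπ.ne']
  have hlogA : Real.log (Real.pi * (n + 1)) = Real.log Real.pi + Real.log (n + 1) :=
    Real.log_mul hπ.ne' (by positivity)
  have hlogB : Real.log ((k : ℝ) * (n + 1)) = Real.log k + Real.log (n + 1) :=
    Real.log_mul hkp.ne' (by positivity)
  rw [hlogA] at heq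
  have hent2 : n * Real.log ((k : ℝ) * (n + 1)) - Real.log n.factorial - δ
      ≤ -∑ α ∈ Bs, g α * Real.log (g α) := by
    rw [hlogB]
    rw [hlogm] at hent
    linarith
  have hmean2 : ∑ α ∈ Bs, g α * (∑ i, (α i : ℝ)) ≤ (n + δ) * k := by
    refine hmean.trans ?_
    rw [hθ, div_div_eq_mul_div, div_one]
    have h4 : (n + δ / 4) / (3 * δ / 4) ≤ (k : ℝ) := hk₄.trans (by exact_mod_cast hk4)
    rw [div_le_iff₀ (by positivity)] at h4
    linarith
  have hfin := hk₁ k hk1 Bs hideal hdeg g hg0 hg1 hmono hmean2 hent2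
  rw [← (onb_card hφ hμ hk5 hs).1, ← hcard]
  exact hfin

/-- the volume bound -/
theorem vol_le [IsProbabilityMeasure μ] (hn : 0 < n) (hφ : IsPos 1 φ) (hμ : IsDens μ φ)
    (hdim : ∀ η > 0, ∃ k₀ : ℕ, ∀ k ≥ k₀, (Module.finrank ℂ (H0 n M k) : ℝ)
      ≤ ((n + 1) ^ n / n.factorial + η) * (k : ℝ) ^ n) :
    ∫ x, dl φ x ∂μ ≤ (Real.pi * (n + 1)) ^ n / n.factorial := by
  haveI : Nonempty M := ConnectedSpace.toNonempty
  have hdlc := continuous_dl hφ
  have hπ := Real.pi_pos
  have hint : Integrable (dl φ) μ :=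
    hdlc.integrable_of_hasCompactSupport (HasCompactSupport.of_compactSpace _)
  have step : ∀ ε : ℝ, 0 < ε → ε < 1 →
      (1 - ε) * ∫ x, dl φ x ∂μ ≤ Real.pi ^ n * ((n + 1) ^ n / n.factorial + ε) := by
    intro ε hε hε1
    obtain ⟨k₁, hk₁⟩ := hdim ε hε
    obtain ⟨k₂, hk₂⟩ := onb_lower hφ hμ hε hε1
    set k := max (max k₁ k₂) 1 with hk
    have hk1 : k₁ ≤ k := (le_max_left _ _).trans (le_max_left _ _)
    have hk2 : k₂ ≤ k := (le_max_right _ _).trans (le_max_left _ _)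
    have hk5 : 1 ≤ k := le_max_right _ _
    have hkp : (0 : ℝ) < k := by exact_mod_cast hk5
    obtain ⟨N, s, hs⟩ := onb_exists hφ hμ hk5
    obtain ⟨-, hlow⟩ := hk₂ k hk2
    obtain ⟨hN, hlo⟩ := hlow N s hs
    have hsec : ∀ j, IsSec k (s j) := fun j => (hs.1 j).1.toIsSec
    obtain ⟨hc1, hc2⟩ := onb_card hφ hμ hk5 hs
    have h1 := hk₁ k hk1
    rw [← hc1] at h1
    have hρc : Continuous fun x => ∑ j, nrm k φ (s j) x :=
      continuous_finset_sum _ fun j _ => continuous_nrm hφ.toIsWeight (hsec j)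
    have h2 : ∫ x, (1 - ε) * (k / Real.pi) ^ n * dl φ x ∂μ
        ≤ ∫ x, (∑ j, nrm k φ (s j) x) * dl φ x ∂μ := by
      refine integral_mono (hint.const_mul _) ?_ fun x => ?_
      · exact (hρc.mul hdlc).integrable_of_hasCompactSupport
          (HasCompactSupport.of_compactSpace _)
      · exact mul_le_mul_of_nonneg_right (hlo x) (dl_pos hφ x).le
    rw [integral_const_mul, hc2] at h2
    have h3 := h2.trans h1
    have h4 : (1 - ε) * (k / Real.pi) ^ n * ∫ x, dl φ x ∂μ =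
        ((1 - ε) * ∫ x, dl φ x ∂μ) / Real.pi ^ n * (k : ℝ) ^ n := by
      rw [div_pow]; ring
    rw [h4] at h3
    have h5 := le_of_mul_le_mul_right h3 (pow_pos hkp n)
    rw [div_le_iff₀ (pow_pos hπ n)] at h5
    linarith
  have hl1 : Tendsto (fun ε : ℝ => (1 - ε) * ∫ x, dl φ x ∂μ) (𝓝[>] 0)
      (𝓝 ((1 - 0) * ∫ x, dl φ x ∂μ)) := by
    refine Tendsto.mul_const _ (Tendsto.const_sub _ ?_)
    exact tendsto_nhdsWithin_of_tendsto_nhds tendsto_id
  have hl2 : Tendsto (fun ε : ℝ => Real.pi ^ n * ((n + 1) ^ n / n.factorial + ε)) (𝓝[>] 0)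
      (𝓝 (Real.pi ^ n * ((n + 1) ^ n / n.factorial + 0))) := by
    refine Tendsto.const_mul _ (Tendsto.const_add _ ?_)
    exact tendsto_nhdsWithin_of_tendsto_nhds tendsto_id
  have hfin := le_of_tendsto_of_tendsto hl1 hl2 (by
    filter_upwards [Ioo_mem_nhdsGT (show (0 : ℝ) < 1 by norm_num)] with ε hε
    exact step ε hε.1 hε.2)
  rw [sub_zero, one_mul, add_zero] at hfin
  refine hfin.trans (le_of_eq ?_)
  rw [mul_pow]
  ring

end Q5

/-- equality implies Kähler-Einstein, and the dimension of the spaces of sections -/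
theorem ke_of_eq [IsProbabilityMeasure μ] (hn : 0 < n) (hφ : IsPos 1 φ) (hμ : IsDens μ φ)
    (heq : n * Real.log (Real.pi * (n + 1)) - Real.log n.factorial
      ≤ ∫ x, Real.log (dl φ x) ∂μ) :
    (∀ x, dl φ x = (Real.pi * (n + 1)) ^ n / n.factorial) ∧
    ∀ η > 0, ∃ k₀ : ℕ, ∀ k ≥ k₀, (Module.finrank ℂ (H0 n M k) : ℝ)
      ≤ ((n + 1) ^ n / n.factorial + η) * (k : ℝ) ^ n := by
  have hdim : ∀ η > 0, ∃ k₀ : ℕ, ∀ k ≥ k₀, (Module.finrank ℂ (H0 n M k) : ℝ)
      ≤ ((n + 1) ^ n / n.factorial + η) * (k : ℝ) ^ n := fun η hη => Q5.dim_le hn hφ hμ heq hη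
  refine ⟨?_, hdim⟩
  have hvol := Q5.vol_le hn hφ hμ hdim
  haveI : μ.IsOpenPosMeasure := isOpenPosMeasure_of_isDens hφ.toIsWeight hμ
  have hπ := Real.pi_pos
  have hdlc := continuous_dl hφ
  have hlc : Continuous fun x => Real.log (dl φ x) := hdlc.log fun x => (dl_pos hφ x).ne'
  set A : ℝ := (Real.pi * (n + 1)) ^ n / n.factorial with hA
  have hfac : (0 : ℝ) < n.factorial := by exact_mod_cast n.factorial_pos
  have hAp : 0 < A := by positivity
  have hlogA : Real.log A = n * Real.log (Real.pi * (n + 1)) - Real.log n.factorial := by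
    rw [hA, Real.log_div (by positivity) hfac.ne', Real.log_pow]
  rw [← hlogA] at heq
  -- the function `t/A - 1 - log (t/A)`
  set f : M → ℝ := fun x => dl φ x / A - 1 - (Real.log (dl φ x) - Real.log A) with hf
  have hfc : Continuous f := ((hdlc.div_const A).sub continuous_const).sub (hlc.sub continuous_const)
  have hf0 : 0 ≤ f := by
    intro x
    have h1 := Real.log_le_sub_one_of_pos (div_pos (dl_pos hφ x) hAp)
    rw [Real.log_div (dl_pos hφ x).ne' hAp.ne'] at h1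
    simp only [hf, Pi.zero_apply]
    linarith
  have hI : ∀ g : M → ℝ, Continuous g → Integrable g μ := fun g hg =>
    hg.integrable_of_hasCompactSupport (HasCompactSupport.of_compactSpace _)
  have hint : ∫ x, f x ∂μ ≤ 0 := by
    have e1 : ∫ x, f x ∂μ = (∫ x, dl φ x ∂μ) / A - 1 - (∫ x, Real.log (dl φ x) ∂μ - Real.log A) := by
      simp only [hf]
      have i1 : Integrable (fun x => dl φ x / A - 1) μ :=
        hI _ ((hdlc.div_const A).sub continuous_const)
      have i2 : Integrable (fun x => Real.log (dl φ x) - Real.log A) μ :=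
        hI _ (hlc.sub continuous_const)
      have i3 : Integrable (fun x => dl φ x / A) μ := hI _ (hdlc.div_const A)
      have i4 : Integrable (fun x => Real.log (dl φ x)) μ := hI _ hlc
      rw [integral_sub i1 i2, integral_sub i3 (integrable_const _),
        integral_sub i4 (integrable_const _), integral_div]
      simp
    rw [e1]
    have h1 : (∫ x, dl φ x ∂μ) / A ≤ 1 := by rw [div_le_one hAp]; exact hvol
    linarith
  have hfz : ∫ x, f x ∂μ = 0 := le_antisymm hint (integral_nonneg hf0)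
  have hae : f =ᵐ[μ] 0 := (integral_eq_zero_iff_of_nonneg hf0 (hI f hfc)).1 hfz
  have hfe : f = 0 := (hfc.ae_eq_iff_eq μ continuous_zero).1 hae
  intro x
  have h1 : f x = 0 := congrFun hfe x
  by_contra hne
  have h2 : dl φ x / A ≠ 1 := by
    intro h
    rw [div_eq_one_iff_eq hAp.ne'] at h
    exact hne h
  have h3 := Real.log_lt_sub_one_of_pos (div_pos (dl_pos hφ x) hAp) h2
  rw [Real.log_div (dl_pos hφ x).ne' hAp.ne'] at h3
  simp only [hf] at h1
  linarith

end Pool.Agent.helper63.NU
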